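import Mathlib

/-!
# Sums of u genuine k-th powers have gaps O(t^((1-1/k)^u))
-/

set_option autoImplicit false

namespace Pool.H48.Wt

/-- sums of u k-th powers of natural numbers -/
def Pw (k u : ℕ) : Set ℝ := {n | ∃ y : Fin u → ℕ, n = ∑ i, (y i : ℝ) ^ k}

theorem one_step (k : ℕ) (hk : 1 ≤ k) (r : ℝ) (hr : 0 ≤ r) :
    ∃ y : ℕ, (y : ℝ) ^ k ≤ r ∧ r - (y : ℝ) ^ k ≤ k * r ^ (1 - 1 / (k : ℝ)) := by
  have hk0 : (0 : ℝ) < k := by exact_mod_cast (by omega : 0 < k)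
  set z : ℝ := r ^ ((1 : ℝ) / k) with hz
  have hz0 : 0 ≤ z := by positivity
  have hzk : z ^ k = r := by
    rw [hz, ← Real.rpow_natCast, ← Real.rpow_mul hr, one_div, inv_mul_cancel₀ hk0.ne', Real.rpow_one]
  have h1 : ((⌊z⌋₊ : ℕ) : ℝ) ≤ z := Nat.floor_le hz0
  have h2 : z < (⌊z⌋₊ : ℕ) + 1 := Nat.lt_floor_add_one z
  refine ⟨⌊z⌋₊, ?_, ?_⟩
  · rw [← hzk]
    exact pow_le_pow_left₀ (by positivity) h1 k
  · have h3 := abs_pow_sub_pow_le z ((⌊z⌋₊ : ℕ) : ℝ) k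
    have h4 : max |z| |((⌊z⌋₊ : ℕ) : ℝ)| = z := by
      rw [abs_of_nonneg hz0, abs_of_nonneg (by positivity)]
      exact max_eq_left h1
    rw [h4, hzk] at h3
    have h5 : |z - ((⌊z⌋₊ : ℕ) : ℝ)| ≤ 1 := by
      rw [abs_of_nonneg (by linarith)]
      linarith
    have h6 : z ^ (k - 1) = r ^ (1 - 1 / (k : ℝ)) := by
      rw [hz, ← Real.rpow_natCast, ← Real.rpow_mul hr]
      congr 1
      rw [Nat.cast_sub hk]
      field_simp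
      push_cast
      ring
    rw [← h6]
    refine (le_abs_self _).trans (h3.trans ?_)
    have h7 : (0 : ℝ) ≤ k * z ^ (k - 1) := by positivity
    calc |z - ((⌊z⌋₊ : ℕ) : ℝ)| * k * z ^ (k - 1) = |z - ((⌊z⌋₊ : ℕ) : ℝ)| * (k * z ^ (k - 1)) := by ring
      _ ≤ 1 * (k * z ^ (k - 1)) := mul_le_mul_of_nonneg_right h5 h7
      _ = _ := one_mul _

theorem greedy (k u : ℕ) (hk : 1 ≤ k) : ∃ K : ℝ, 0 < K ∧ ∀ t : ℝ, 0 ≤ t →
    ∃ n ∈ Pw k u, n ≤ t ∧ t - n ≤ K * (1 + t) ^ ((1 - 1 / (k : ℝ)) ^ u) := by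
  have hk0 : (0 : ℝ) < k := by exact_mod_cast (by omega : 0 < k)
  have hθ : 0 ≤ 1 - 1 / (k : ℝ) := by
    have : 1 / (k : ℝ) ≤ 1 := by
      rw [div_le_one hk0]
      exact_mod_cast hk
    linarith
  induction u with
  | zero =>
    refine ⟨1, one_pos, fun t ht => ⟨0, ⟨fun _ => 0, by simp⟩, ht, ?_⟩⟩
    simp
  | succ u ih =>
    obtain ⟨K, hK, h⟩ := ih
    refine ⟨k * K ^ (1 - 1 / (k : ℝ)), by positivity, fun t ht => ?_⟩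
    obtain ⟨n, ⟨y, rfl⟩, h1, h2⟩ := h t ht
    obtain ⟨z, h3, h4⟩ := one_step k hk (t - ∑ i, (y i : ℝ) ^ k) (by linarith)
    refine ⟨∑ i, ((Fin.cons z y : Fin (u + 1) → ℕ) i : ℝ) ^ k, ⟨_, rfl⟩, ?_, ?_⟩
    · rw [Fin.sum_univ_succ]
      simp only [Fin.cons_zero, Fin.cons_succ]
      linarith
    · rw [Fin.sum_univ_succ]
      simp only [Fin.cons_zero, Fin.cons_succ]
      have h5 : (t - ∑ i, (y i : ℝ) ^ k) ^ (1 - 1 / (k : ℝ)) ≤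
          (K * (1 + t) ^ ((1 - 1 / (k : ℝ)) ^ u)) ^ (1 - 1 / (k : ℝ)) :=
        Real.rpow_le_rpow (by linarith) h2 hθ
      rw [Real.mul_rpow hK.le (by positivity), ← Real.rpow_mul (by linarith), ← pow_succ] at h5
      calc t - ((z : ℝ) ^ k + ∑ i, (y i : ℝ) ^ k) = t - ∑ i, (y i : ℝ) ^ k - (z : ℝ) ^ k := by ring
        _ ≤ k * (t - ∑ i, (y i : ℝ) ^ k) ^ (1 - 1 / (k : ℝ)) := h4
        _ ≤ k * (K ^ (1 - 1 / (k : ℝ)) * (1 + t) ^ ((1 - 1 / (k : ℝ)) ^ (u + 1))) := by gcongr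
        _ = _ := by ring

/-- well spaced points of a set with small gaps -/
theorem points (A : Set ℝ) (k : ℕ) (K δ x κ0 : ℝ) (hK : 0 < K) (hδ : 0 ≤ δ) (hx : k * δ ≤ x)
    (hκ0 : 0 < κ0) (hA : ∀ t : ℝ, 0 ≤ t → ∃ n ∈ A, n ≤ t ∧ t - n ≤ K * (1 + t) ^ δ) :
    ∃ K' : ℝ, 1 ≤ K' ∧ ∀ P : ℕ, 1 ≤ P → ∃ β : ℕ → ℝ, ∀ m : ℕ,
      ((m : ℝ) + 1) * (K' * (P : ℝ) ^ x) ≤ κ0 * (P : ℝ) ^ k →
      β m ∈ A ∧ (m : ℝ) * (K' * (P : ℝ) ^ x) ≤ β m ∧ β m < ((m : ℝ) + 1) * (K' * (P : ℝ) ^ x) := by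
  set K' : ℝ := max 1 (2 * K * (1 + κ0) ^ δ) with hK'
  refine ⟨K', le_max_left _ _, fun P hP => ?_⟩
  have hP1 : (1 : ℝ) ≤ P := by exact_mod_cast hP
  have hP0 : (0 : ℝ) < P := by linarith
  have hK'0 : 0 < K' := lt_of_lt_of_le one_pos (le_max_left _ _)
  set D : ℝ := K' * (P : ℝ) ^ x with hD
  have hD0 : 0 < D := by positivity
  have hex : ∀ m : ℕ, ∃ n : ℝ, ((m : ℝ) + 1) * D ≤ κ0 * (P : ℝ) ^ k →
      n ∈ A ∧ (m : ℝ) * D ≤ n ∧ n < ((m : ℝ) + 1) * D := by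
    intro m
    obtain ⟨n, hn, h1, h2⟩ := hA (m * D + D / 2) (by positivity)
    refine ⟨n, fun hm => ⟨hn, ?_, by nlinarith⟩⟩
    have h3 : 1 + (m * D + D / 2) ≤ (1 + κ0) * (P : ℝ) ^ k := by
      have : (1 : ℝ) ≤ (P : ℝ) ^ k := one_le_pow₀ hP1
      nlinarith
    have h4 : (1 + (m * D + D / 2)) ^ δ ≤ (1 + κ0) ^ δ * (P : ℝ) ^ x := by
      calc (1 + (m * D + D / 2)) ^ δ ≤ ((1 + κ0) * (P : ℝ) ^ k) ^ δ :=
            Real.rpow_le_rpow (by positivity) h3 hδ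
        _ = (1 + κ0) ^ δ * (P : ℝ) ^ (k * δ) := by
            rw [Real.mul_rpow (by positivity) (by positivity), ← Real.rpow_natCast,
              ← Real.rpow_mul hP0.le]
        _ ≤ _ := by gcongr
    have h5 : K * (1 + (m * D + D / 2)) ^ δ ≤ D / 2 := by
      have h6 : 2 * K * (1 + κ0) ^ δ ≤ K' := le_max_right _ _
      have h7 : 0 < (P : ℝ) ^ x := by positivity
      calc K * (1 + (m * D + D / 2)) ^ δ ≤ K * ((1 + κ0) ^ δ * (P : ℝ) ^ x) := by gcongr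
        _ = (2 * K * (1 + κ0) ^ δ) * (P : ℝ) ^ x / 2 := by ring
        _ ≤ K' * (P : ℝ) ^ x / 2 := by gcongr
        _ = D / 2 := by rw [hD]
    linarith
  choose β hβ using hex
  exact ⟨β, fun m hm => hβ m hm⟩

end Pool.H48.Wt
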