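import Pool.Agent.H19.Wa.Major

/-!
# The tail of the main term, with a power saving
-/

set_option autoImplicit false

namespace Pool.H48.Wt

open MeasureTheory Set Pool.H19.Wa

theorem D2s (k s : ℕ) (hk : 4 ≤ k) (hs : 2 ≤ s) :
    ∃ C : ℝ, 0 < C ∧ ∀ P : ℕ, 1 ≤ P → ∀ b : ℝ, 1 ≤ b →
      ∫ t in {t : ℝ | t1 k P < |t|}, w b t * ‖v k P t‖ ^ s ≤ C * (P : ℝ) ^ (1 - (k : ℝ)) := by
  have hk0 : (0 : ℝ) < k := by exact_mod_cast (by omega : 0 < k)
  set L : ℝ := 2 * k * 2 ^ (k - 1) with hL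
  have hL0 : 0 < L := by positivity
  refine ⟨L ^ (s - 2) * (1 + L ^ 2) * Real.pi, by positivity, ?_⟩
  intro P hP b hb
  have hP0 : (0 : ℝ) < P := by exact_mod_cast hP
  have hP1 : (1 : ℝ) ≤ P := by exact_mod_cast hP
  have hPk : (0 : ℝ) < (P : ℝ) ^ (k - 1) := by positivity
  have key := set_bound (S := {t : ℝ | t1 k P < |t|})
    (g := fun t => w b t * ‖v k P t‖ ^ s)
    (K := L ^ (s - 2) * (1 + L ^ 2)) (c := (P : ℝ) ^ (k - 1))
    (measurableSet_lt measurable_const measurable_norm) (by positivity) hPk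
    (fun t => mul_nonneg (w_nonneg _ _) (by positivity)) ?_
  · refine key.trans (le_of_eq ?_)
    have h1 : (P : ℝ) ^ (1 - (k : ℝ)) = ((P : ℝ) ^ (k - 1))⁻¹ := by
      have e1 : (1 - (k : ℝ)) = -(((k - 1 : ℕ) : ℝ)) := by
        rw [Nat.cast_sub (by omega)]; simp
      rw [e1, Real.rpow_neg hP0.le, Real.rpow_natCast]
    rw [h1]
    ring
  · intro t ht
    have ht' : t1 k P < |t| := ht
    have ht1 : 0 < t1 k P := by unfold t1; positivity
    have habs : 0 < |t| := ht1.trans ht'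
    have h0 : t ≠ 0 := abs_pos.1 habs
    set x : ℝ := |t| * (P : ℝ) ^ (k - 1) with hx
    have hx0 : 0 < x := by positivity
    have hxL : 1 / x < L := by
      rw [div_lt_iff₀ hx0]
      have h1 : t1 k P * (L * (P : ℝ) ^ (k - 1)) = 1 := by
        unfold t1
        rw [hL, mul_pow]
        field_simp
      calc 1 = t1 k P * (L * (P : ℝ) ^ (k - 1)) := h1.symm
        _ < |t| * (L * (P : ℝ) ^ (k - 1)) := mul_lt_mul_of_pos_right ht' (by positivity)
        _ = L * x := by rw [hx]; ring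
    have hv : ‖v k P t‖ ≤ 1 / x := v_bound k P hk hP t h0
    have hxx : ((P : ℝ) ^ (k - 1) * t) ^ 2 = x ^ 2 := by
      rw [hx, mul_pow, mul_pow, sq_abs]
      ring
    rw [hxx]
    obtain ⟨m, rfl⟩ : ∃ m, s = m + 2 := ⟨s - 2, by omega⟩
    have h5 : (1 / x) ^ 2 ≤ (1 + L ^ 2) * (1 + x ^ 2)⁻¹ := by
      have h6 : (1 / x) ^ 2 ≤ L ^ 2 := pow_le_pow_left₀ (by positivity) hxL.le 2
      rw [← div_eq_mul_inv, le_div_iff₀ (by positivity)]
      have h7 : (1 / x) ^ 2 * (1 + x ^ 2) = (1 / x) ^ 2 + 1 := by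
        field_simp
      rw [h7]
      linarith
    calc w b t * ‖v k P t‖ ^ (m + 2) ≤ 1 * (1 / x) ^ (m + 2) :=
          mul_le_mul (w_le_one hb t) (pow_le_pow_left₀ (norm_nonneg _) hv _) (by positivity)
            zero_le_one
      _ = (1 / x) ^ m * (1 / x) ^ 2 := by rw [one_mul, pow_add]
      _ ≤ L ^ m * ((1 + L ^ 2) * (1 + x ^ 2)⁻¹) :=
          mul_le_mul (pow_le_pow_left₀ (by positivity) hxL.le _) h5 (by positivity)
            (by positivity)
      _ = L ^ (m + 2 - 2) * (1 + L ^ 2) * (1 + x ^ 2)⁻¹ := by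
          rw [Nat.add_sub_cancel]
          ring

end Pool.H48.Wt
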