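import Pool.Agent.H19.Wa.MeanLow

/-!
# Lower bound for the mean number of representations, on a longer range of targets
-/

set_option autoImplicit false

namespace Pool.H48.Wt

open MeasureTheory Set Pool.H19.Wa

theorem mean_lower2 (k s : ℕ) (hk : 1 ≤ k) (hs : 1 ≤ s) :
    ∃ c : ℝ, 0 < c ∧ ∃ κ : ℝ, 0 < κ ∧ ∃ P0 : ℕ, ∀ P : ℕ, P0 ≤ P → ∀ b : ℝ, 1 ≤ b → ∀ tau : ℝ,
      (s : ℝ) * (3 * (P : ℝ) / 2) ^ k - κ * (P : ℝ) ^ k ≤ tau → tau ≤ (s : ℝ) * (3 * ((P : ℝ) + 1) / 2) ^ k →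
      c * (P : ℝ) ^ ((s : ℝ) - k) * (Real.sqrt b)⁻¹ ≤ ∫ al, R k P s b tau al ∂PP s := by
  obtain ⟨j, rfl⟩ : ∃ j, k = j + 1 := ⟨k - 1, by omega⟩
  obtain ⟨r, rfl⟩ : ∃ r, s = r + 1 := ⟨s - 1, by omega⟩
  -- the constants
  have hc1 : ∃ δ0 : ℝ, 0 < δ0 ∧ δ0 ≤ 1 / 2 ∧
      (6 / 5 : ℝ) ^ (j + 1) ≤ (r + 1) * (3 / 2 : ℝ) ^ (j + 1) - r * (3 / 2 + δ0) ^ (j + 1) - δ0 := by
    have hcont : Continuous fun δ : ℝ =>
        ((r : ℝ) + 1) * (3 / 2 : ℝ) ^ (j + 1) - r * (3 / 2 + δ) ^ (j + 1) - δ := by fun_prop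
    have hlt : (6 / 5 : ℝ) ^ (j + 1) <
        ((r : ℝ) + 1) * (3 / 2 : ℝ) ^ (j + 1) - r * (3 / 2 + 0) ^ (j + 1) - 0 := by
      have : (6 / 5 : ℝ) ^ (j + 1) < (3 / 2) ^ (j + 1) :=
        pow_lt_pow_left₀ (by norm_num) (by norm_num) (Nat.succ_ne_zero j)
      rw [add_zero]
      linarith
    have hev := (hcont.tendsto 0).eventually (lt_mem_nhds hlt)
    obtain ⟨ε, hε, hball⟩ := Metric.eventually_nhds_iff.1 hev
    refine ⟨min (ε / 2) (1 / 2), by positivity, min_le_right _ _, le_of_lt (hball ?_)⟩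
    rw [Real.dist_eq, sub_zero, abs_of_pos (by positivity)]
    exact lt_of_le_of_lt (min_le_left _ _) (by linarith)
  have hc2 : ∃ h0 : ℝ, 0 < h0 ∧ ∀ h : ℝ, 0 ≤ h → h ≤ h0 →
      (3 / 2 : ℝ) ^ (j + 1) * ((r + 1) * (1 + h) ^ (j + 1) - r) ≤ (19 / 10 : ℝ) ^ (j + 1) := by
    have hcont : Continuous fun h : ℝ =>
        (3 / 2 : ℝ) ^ (j + 1) * (((r : ℝ) + 1) * (1 + h) ^ (j + 1) - r) := by fun_prop
    have hlt : (3 / 2 : ℝ) ^ (j + 1) * (((r : ℝ) + 1) * (1 + 0) ^ (j + 1) - r) <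
        (19 / 10 : ℝ) ^ (j + 1) := by
      have : (3 / 2 : ℝ) ^ (j + 1) < (19 / 10) ^ (j + 1) :=
        pow_lt_pow_left₀ (by norm_num) (by norm_num) (Nat.succ_ne_zero j)
      rw [add_zero, one_pow]
      linarith
    have hev := (hcont.tendsto 0).eventually (gt_mem_nhds hlt)
    obtain ⟨ε, hε, hball⟩ := Metric.eventually_nhds_iff.1 hev
    refine ⟨ε / 2, by positivity, fun h hh0 hh1 => le_of_lt (hball ?_)⟩
    rw [Real.dist_eq, sub_zero, abs_of_nonneg hh0]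
    linarith
  obtain ⟨δ0, hδ0, hδ1, hδ⟩ := hc1
  obtain ⟨h0, hh0, hh⟩ := hc2
  obtain ⟨N1, hN1⟩ := exists_nat_ge (4 / δ0)
  obtain ⟨N2, hN2⟩ := exists_nat_ge (1 / h0)
  refine ⟨(δ0 / 2) ^ r * Real.exp (-Real.pi) / ((j + 1) * 2 ^ j), by positivity, δ0, hδ0,
    max 10 (max N1 N2), fun P hP b hb tau ht1 ht2 => ?_⟩
  have hP10 : 10 ≤ P := (le_max_left _ _).trans hP
  have hPN1 : N1 ≤ P := ((le_max_left _ _).trans (le_max_right _ _)).trans hP
  have hPN2 : N2 ≤ P := ((le_max_right _ _).trans (le_max_right _ _)).trans hP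
  have hPR : (10 : ℝ) ≤ P := by exact_mod_cast hP10
  have hP0 : (0 : ℝ) < P := by linarith
  have hPδ : 4 ≤ δ0 * P := by
    have h1 : (4 / δ0 : ℝ) ≤ P := hN1.trans (by exact_mod_cast hPN1)
    rw [div_le_iff₀ hδ0] at h1
    linarith
  have hPh : 1 / (P : ℝ) ≤ h0 := by
    have h1 : (1 / h0 : ℝ) ≤ P := hN2.trans (by exact_mod_cast hPN2)
    rw [div_le_iff₀ hh0] at h1
    rw [div_le_iff₀ hP0]
    linarith
  have hb0 : 0 ≤ b := by linarith
  set A : ℕ := ⌈(3 / 2 : ℝ) * P⌉₊ with hA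
  set B : ℕ := ⌊(3 / 2 + δ0) * (P : ℝ)⌋₊ with hB
  have hA1 : (3 / 2 : ℝ) * P ≤ A := Nat.le_ceil _
  have hA2 : (A : ℝ) < 3 / 2 * P + 1 := Nat.ceil_lt_add_one (by positivity)
  have hB1 : (B : ℝ) ≤ (3 / 2 + δ0) * P := Nat.floor_le (by positivity)
  have hB2 : (3 / 2 + δ0) * (P : ℝ) - 1 < B := by
    have := Nat.lt_floor_add_one ((3 / 2 + δ0) * (P : ℝ))
    rw [← hB] at this
    linarith
  have hAP : P ≤ A := by
    have : (P : ℝ) ≤ A := by linarith
    exact_mod_cast this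
  have hBP : B ≤ 2 * P := by
    have : (B : ℝ) ≤ 2 * P := by
      have : (3 / 2 + δ0) * (P : ℝ) ≤ 2 * P := by
        have : 3 / 2 + δ0 ≤ 2 := by linarith
        exact mul_le_mul_of_nonneg_right this hP0.le
      linarith
    exact_mod_cast this
  have hAB : A ≤ B := by
    have : (A : ℝ) ≤ B := by nlinarith
    exact_mod_cast this
  have hcard : δ0 / 2 * P ≤ ((B - A : ℕ) : ℝ) := by
    rw [Nat.cast_sub hAB]
    nlinarith
  -- the bounds for the remaining target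
  set D1 : ℝ := Real.exp (-Real.pi) * (1 / (Real.sqrt b * (j + 1) * (2 * (P : ℝ)) ^ j)) with hD1
  have hD10 : 0 ≤ D1 := by positivity
  have hmain : (δ0 / 2 * P) ^ r * D1 ≤ ∫ al, R (j + 1) P (r + 1) b tau al ∂PP (r + 1) := by
    refine ml_fubini (j + 1) P r hb0 tau _ fun al hal => ?_
    have hstep : ∀ y ∈ Fintype.piFinset (fun _ : Fin r => Finset.Ico A B),
        D1 ≤ ∫ a in (0 : ℝ)..1, ∑ x ∈ Finset.Ico P (2 * P),
          G b (((x : ℝ) + a) ^ (j + 1) - (tau - ∑ i, ((y i : ℝ) + al i) ^ (j + 1))) := by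
      intro y hy
      rw [ml_unfold]
      have hyi : ∀ i, (3 / 2 : ℝ) * P ≤ (y i : ℝ) + al i ∧
          (y i : ℝ) + al i ≤ (3 / 2 + δ0) * P := by
        intro i
        have h1 := Finset.mem_Ico.1 (Fintype.mem_piFinset.1 hy i)
        have h2 : (A : ℝ) ≤ y i := by exact_mod_cast h1.1
        have h3 : (y i : ℝ) + 1 ≤ B := by exact_mod_cast h1.2
        have h4 := hal i
        exact ⟨by linarith [h4.1], by linarith [h4.2]⟩
      have hm1 : ∑ i, ((y i : ℝ) + al i) ^ (j + 1) ≤ r * ((3 / 2 + δ0) * P) ^ (j + 1) := by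
        have : ∑ i, ((y i : ℝ) + al i) ^ (j + 1) ≤
            ∑ _i : Fin r, ((3 / 2 + δ0) * (P : ℝ)) ^ (j + 1) :=
          Finset.sum_le_sum fun i _ =>
            pow_le_pow_left₀ (le_trans (by positivity) (hyi i).1) (hyi i).2 _
        simpa using this
      have hm2 : r * ((3 / 2 : ℝ) * P) ^ (j + 1) ≤ ∑ i, ((y i : ℝ) + al i) ^ (j + 1) := by
        have : ∑ _i : Fin r, ((3 / 2 : ℝ) * (P : ℝ)) ^ (j + 1) ≤
            ∑ i, ((y i : ℝ) + al i) ^ (j + 1) :=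
          Finset.sum_le_sum fun i _ => pow_le_pow_left₀ (by positivity) (hyi i).1 _
        simpa using this
      refine ml_inner j P hP10 b hb _ ?_ ?_
      · have e1 : (6 / 5 * (P : ℝ)) ^ (j + 1) ≤
            ((r + 1) * (3 / 2 : ℝ) ^ (j + 1) - r * (3 / 2 + δ0) ^ (j + 1) - δ0) * P ^ (j + 1) := by
          rw [mul_pow]
          exact mul_le_mul_of_nonneg_right hδ (by positivity)
        have e2 : ((r : ℝ) + 1) * (3 / 2 * (P : ℝ)) ^ (j + 1) - δ0 * (P : ℝ) ^ (j + 1) ≤ tau := by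
          refine le_trans (le_of_eq ?_) ht1
          push_cast
          ring
        rw [mul_pow] at hm1 e2
        nlinarith
      · have e1 := hh (1 / P) (by positivity) hPh
        have e2 : tau ≤ ((r : ℝ) + 1) * ((3 / 2) ^ (j + 1) * (1 + 1 / P) ^ (j + 1) *
            P ^ (j + 1)) := by
          refine ht2.trans (le_of_eq ?_)
          rw [← mul_pow, ← mul_pow]
          push_cast
          congr 2
          field_simp
        have e3 : ((3 / 2 : ℝ) ^ (j + 1) * ((r + 1) * (1 + 1 / P) ^ (j + 1) - r)) * P ^ (j + 1) ≤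
            (19 / 10 : ℝ) ^ (j + 1) * P ^ (j + 1) := mul_le_mul_of_nonneg_right e1 (by positivity)
        rw [mul_pow] at hm2
        rw [mul_pow]
        nlinarith
    -- sum over the box
    have hbox : (δ0 / 2 * P) ^ r * D1 ≤
        ∑ _y ∈ Fintype.piFinset (fun _ : Fin r => Finset.Ico A B), D1 := by
      rw [Finset.sum_const, Fintype.card_piFinset]
      simp only [Nat.card_Ico, Finset.prod_const, Finset.card_univ, Fintype.card_fin,
        nsmul_eq_mul, Nat.cast_pow]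
      exact mul_le_mul_of_nonneg_right (pow_le_pow_left₀ (by positivity) hcard r) hD10
    refine hbox.trans ((Finset.sum_le_sum hstep).trans ?_)
    have hcontG : ∀ (x : ℕ) (M : ℝ), Continuous fun a : ℝ => G b (((x : ℝ) + a) ^ (j + 1) - M) :=
      fun x M => (ml_continuous_G b).comp (by fun_prop)
    rw [← intervalIntegral.integral_finsetSum]
    · refine intervalIntegral.integral_mono_on zero_le_one ?_ ?_ fun a _ => ?_
      · refine Continuous.intervalIntegrable ?_ _ _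
        exact continuous_finsetSum _ fun y _ => continuous_finsetSum _ fun x _ => hcontG x _
      · refine Continuous.intervalIntegrable ?_ _ _
        refine (ml_continuous_R _ _ _ _ _).comp ?_
        exact Continuous.finCons continuous_id continuous_const
      · exact ml_R_ge j P r A B hAP hBP b tau a al
    · intro y _
      refine Continuous.intervalIntegrable ?_ _ _
      exact continuous_finsetSum _ fun x _ => hcontG x _
  refine le_trans (le_of_eq ?_) hmain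
  have hexp : (P : ℝ) ^ (((r + 1 : ℕ) : ℝ) - ((j + 1 : ℕ) : ℝ)) = (P : ℝ) ^ r / (P : ℝ) ^ j := by
    rw [← Real.rpow_natCast (P : ℝ) r, ← Real.rpow_natCast (P : ℝ) j, ← Real.rpow_sub hP0]
    congr 1
    push_cast
    ring
  have hsb : 0 < Real.sqrt b := Real.sqrt_pos.2 (by linarith)
  rw [hexp, hD1, mul_pow, mul_pow]
  field_simp

end Pool.H48.Wt
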