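import Pool.Agent.H48.Wt.Minor2

/-!
# Minor arc estimates with weights, large frequencies
-/

set_option autoImplicit false

namespace Pool.H48.Wt

open MeasureTheory Set Pool.H19.Wa

theorem rp_le {P : ℝ} (hP : 1 ≤ P) (a : ℝ) (n : ℕ) (c d : ℝ) (h : a * n + c ≤ d) :
    (P ^ a) ^ n * P ^ c ≤ P ^ d := by
  have hP0 : 0 < P := by linarith
  rw [← Real.rpow_natCast, ← Real.rpow_mul hP0.le, ← Real.rpow_add hP0]
  exact Real.rpow_le_rpow_of_exponent_le hP h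

theorem integral_three {μ : Measure ℝ} {f g h : ℝ → ℝ} (hf : Integrable f μ) (hg : Integrable g μ)
    (hh : Integrable h μ) :
    ∫ t, (f t + g t + h t) ∂μ = ∫ t, f t ∂μ + ∫ t, g t ∂μ + ∫ t, h t ∂μ := by
  have h1 : ∫ t, (f t + g t + h t) ∂μ = ∫ t, (f t + g t) ∂μ + ∫ t, h t ∂μ :=
    integral_add (hf.add hg) hh
  have h2 : ∫ t, (f t + g t) ∂μ = ∫ t, f t ∂μ + ∫ t, g t ∂μ := integral_add hf hg
  rw [h1, h2]

/-- number of dyadic blocks -/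
theorem blocks (k P : ℕ) (hP : 1 ≤ P) (κ : ℝ) (hκ0 : 0 ≤ κ) (hκ : κ ≤ k) :
    ∃ I : ℕ, 1 ≤ 2 ^ I * (P : ℝ) ^ (-κ) ∧ (I : ℝ) ≤ (1 + 2 * k) * (1 + Real.log P) := by
  have hP0 : (0 : ℝ) < P := by exact_mod_cast hP
  have hP1 : (1 : ℝ) ≤ P := by exact_mod_cast hP
  have hlog : 0 ≤ Real.log P := Real.log_nonneg hP1
  have hl2 : (0.5 : ℝ) < Real.log 2 := by linarith [Real.log_two_gt_d9]
  refine ⟨⌈2 * κ * Real.log P⌉₊, ?_, ?_⟩
  · have h1 : 2 * κ * Real.log P ≤ (⌈2 * κ * Real.log P⌉₊ : ℝ) := Nat.le_ceil _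
    have h2 : (P : ℝ) ^ κ ≤ 2 ^ ⌈2 * κ * Real.log P⌉₊ := by
      rw [← Real.rpow_natCast 2, Real.rpow_def_of_pos hP0, Real.rpow_def_of_pos (by norm_num : (0:ℝ) < 2)]
      apply Real.exp_le_exp.mpr
      have h3 : 0 ≤ κ * Real.log P := mul_nonneg hκ0 hlog
      nlinarith
    rw [Real.rpow_neg hP0.le, ← div_eq_mul_inv, le_div_iff₀ (Real.rpow_pos_of_pos hP0 _), one_mul]
    exact h2
  · have h1 : (⌈2 * κ * Real.log P⌉₊ : ℝ) < 2 * κ * Real.log P + 1 :=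
      Nat.ceil_lt_add_one (by positivity)
    have h2 : κ * Real.log P ≤ k * Real.log P := mul_le_mul_of_nonneg_right hκ hlog
    have hk0 : (0 : ℝ) ≤ k := by positivity
    nlinarith

theorem minB2 (k s : ℕ) (hk : 4 ≤ k) (hs : 4 ≤ s) (x κ : ℝ) (hx : 2 ≤ x) (hκ0 : 0 ≤ κ)
    (hκ3 : κ ≤ (k : ℝ) - 2) :
    ∃ C : ℝ, 0 < C ∧ ∀ P : ℕ, 1 ≤ P → ∀ b : ℝ, 1 ≤ b → ∀ (N : ℕ) (β : ℕ → ℝ) (D : ℝ),
      1 ≤ D → (P : ℝ) ^ x ≤ D →
      (∀ m < N, (m : ℝ) * D ≤ β m ∧ β m < ((m : ℝ) + 1) * D) →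
      ∫ q, (w b q.1 * |‖Bh N β q.1‖|) * (w b q.2 * |‖Bh N β q.2‖|) * ‖Cor k P q.1 q.2‖ ^ s
        ∂((volume.restrict {t : ℝ | (P : ℝ) ^ (-κ) < |t|}).prod
          (volume.restrict {t : ℝ | (P : ℝ) ^ (-κ) < |t|})) ≤
        C * N * (P : ℝ) ^ ((s : ℝ) - k) * (1 + Real.log P) ^ s := by
  have hk4 : (4 : ℝ) ≤ k := by exact_mod_cast hk
  have hs4 : (4 : ℝ) ≤ s := by exact_mod_cast hs
  set J0 := JJ (s : ℝ) with hJ0
  have j0 : 0 ≤ J0 := JJ_nonneg _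
  set c1 : ℝ := J0 * 4 ^ s with hc1
  set c2 : ℝ := J0 * (64 * (1 + 2 ^ k)) ^ s with hc2
  set L : ℝ := 1 + 2 * k with hL
  refine ⟨7 * c1 + (c1 + c2) * (7 + L * 400) + 1, by positivity, fun P hP b hb N β D hD hPD hβ => ?_⟩
  have hP0 : (0 : ℝ) < P := by exact_mod_cast hP
  have hP1 : (1 : ℝ) ≤ P := by exact_mod_cast hP
  have hlog : 0 ≤ Real.log P := Real.log_nonneg hP1
  have hb0 : 0 < b := by linarith
  have hD0 : 0 < D := by linarith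
  have hN0 : (0 : ℝ) ≤ N := by positivity
  set T : ℝ := (P : ℝ) ^ (-κ) with hT
  have hT0 : 0 < T := Real.rpow_pos_of_pos hP0 _
  set E : Set ℝ := {t : ℝ | T < |t|} with hE
  have hEm : MeasurableSet E := measurableSet_lt measurable_const measurable_norm
  obtain ⟨I, hI1, hI2⟩ := blocks k P hP κ hκ0 (by linarith)
  rw [← hT] at hI1
  set B2 : ℝ := (J0 * (64 * (1 + 2 ^ k) * (P : ℝ) ^ (2 - (k : ℝ) / 2)) ^ s) with hB2
  set B3 : ℝ := (J0 * (4 * (P : ℝ) ^ (2 - (k : ℝ))) ^ s) with hB3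
  set B1 : ℝ := J0 * ((4 * (P : ℝ)) ^ s * ((P : ℝ) ^ k)⁻¹) with hB1
  have hK : ∀ t ∈ E, ∫ t' in E, w b t' * ‖Cor k P t t'‖ ^ s ≤
      B1 + B2 * |t| ^ (-((s : ℝ) / 2 - 1)) + B3 * |t| ^ (-((s : ℝ) - 1)) := by
    intro t ht
    have ht : T < |t| := ht
    have ht1 : 0 < |t| := hT0.trans ht
    have htP : 1 ≤ |t| * (P : ℝ) ^ (k - 1) := by
      have h1 : (1 : ℝ) ≤ T * (P : ℝ) ^ (k - 1) := by
        rw [hT, ← Real.rpow_natCast, ← Real.rpow_add hP0]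
        apply Real.one_le_rpow hP1
        have : ((k - 1 : ℕ) : ℝ) = (k : ℝ) - 1 := by rw [Nat.cast_sub (by omega)]; norm_num
        rw [this]; linarith
      refine h1.trans ?_
      gcongr
    exact inner2 k s P hk hP hs b hb E t htP (abs_pos.mp ht1)
  obtain ⟨ti2, te2⟩ := L2_tail N β D hD hβ b hb ((s : ℝ) / 2 - 1) T (by linarith) hT0 I hI1
  obtain ⟨ti3, te3⟩ := L2_tail N β D hD hβ b hb ((s : ℝ) - 1) T (by linarith) hT0 I hI1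
  rw [← hE] at ti2 te2 ti3 te3
  have i1 : IntegrableOn (fun t => B1 * (w b t * ‖Bh N β t‖ ^ 2)) E :=
    (integrable_w_Bh N β hb0).integrableOn.const_mul _
  have i2 : IntegrableOn (fun t => B2 * (w b t * ‖Bh N β t‖ ^ 2 * |t| ^ (-((s : ℝ) / 2 - 1)))) E :=
    ti2.const_mul _
  have i3 : IntegrableOn (fun t => B3 * (w b t * ‖Bh N β t‖ ^ 2 * |t| ^ (-((s : ℝ) - 1)))) E :=
    ti3.const_mul _
  have hfun : (fun t => w b t * ‖Bh N β t‖ ^ 2 *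
      (B1 + B2 * |t| ^ (-((s : ℝ) / 2 - 1)) + B3 * |t| ^ (-((s : ℝ) - 1)))) =
      fun t => B1 * (w b t * ‖Bh N β t‖ ^ 2) +
        B2 * (w b t * ‖Bh N β t‖ ^ 2 * |t| ^ (-((s : ℝ) / 2 - 1))) +
        B3 * (w b t * ‖Bh N β t‖ ^ 2 * |t| ^ (-((s : ℝ) - 1))) := by
    funext t
    ring
  have hKi : IntegrableOn (fun t => w b t * ‖Bh N β t‖ ^ 2 *
      (B1 + B2 * |t| ^ (-((s : ℝ) / 2 - 1)) + B3 * |t| ^ (-((s : ℝ) - 1)))) E := by
    rw [hfun]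
    exact (i1.add i2).add i3
  refine (schur k P s hb0 (fun t => ‖Bh N β t‖) (continuous_Bh N β).norm (N : ℝ) (fun t => by
    rw [abs_of_nonneg (norm_nonneg _)]; exact norm_Bh_le N β t) E hEm _ hK hKi).trans ?_
  have hsum : ∫ t in E, w b t * ‖Bh N β t‖ ^ 2 *
      (B1 + B2 * |t| ^ (-((s : ℝ) / 2 - 1)) + B3 * |t| ^ (-((s : ℝ) - 1))) =
      B1 * (∫ t in E, w b t * ‖Bh N β t‖ ^ 2) +
      B2 * (∫ t in E, w b t * ‖Bh N β t‖ ^ 2 * |t| ^ (-((s : ℝ) / 2 - 1))) +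
      B3 * (∫ t in E, w b t * ‖Bh N β t‖ ^ 2 * |t| ^ (-((s : ℝ) - 1))) := by
    rw [hfun, integral_three i1 i2 i3, integral_const_mul, integral_const_mul, integral_const_mul]
  show ∫ t in E, w b t * ‖Bh N β t‖ ^ 2 *
      (B1 + B2 * |t| ^ (-((s : ℝ) / 2 - 1)) + B3 * |t| ^ (-((s : ℝ) - 1))) ≤ _
  rw [hsum]
  -- the three parts
  set R : ℝ := (P : ℝ) ^ ((s : ℝ) - k) with hR
  have hR0 : 0 < R := Real.rpow_pos_of_pos hP0 _
  have hlog1 : 1 ≤ 1 + Real.log P := by linarith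
  have hlogs : 1 + Real.log P ≤ (1 + Real.log P) ^ s := by
    calc 1 + Real.log P = (1 + Real.log P) ^ 1 := (pow_one _).symm
      _ ≤ _ := pow_le_pow_right₀ hlog1 (by omega)
  have hlogs1 : 1 ≤ (1 + Real.log P) ^ s := one_le_pow₀ hlog1
  have hDx : T ^ (-((s : ℝ) / 2 - 1)) / D ≤ (P : ℝ) ^ (κ * ((s : ℝ) / 2 - 1) - x) := by
    rw [div_le_iff₀ hD0, hT, ← Real.rpow_mul hP0.le]
    calc (P : ℝ) ^ (-κ * -((s : ℝ) / 2 - 1)) = (P : ℝ) ^ (κ * ((s : ℝ) / 2 - 1) - x) * (P : ℝ) ^ x := by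
          rw [← Real.rpow_add hP0]; congr 1; ring
      _ ≤ _ := by gcongr
  have hDx3 : T ^ (-((s : ℝ) - 1)) / D ≤ (P : ℝ) ^ (κ * ((s : ℝ) - 1) - x) := by
    rw [div_le_iff₀ hD0, hT, ← Real.rpow_mul hP0.le]
    calc (P : ℝ) ^ (-κ * -((s : ℝ) - 1)) = (P : ℝ) ^ (κ * ((s : ℝ) - 1) - x) * (P : ℝ) ^ x := by
          rw [← Real.rpow_add hP0]; congr 1; ring
      _ ≤ _ := by gcongr
  have hT2 : T ^ (1 - ((s : ℝ) / 2 - 1)) = (P : ℝ) ^ (κ * ((s : ℝ) / 2 - 2)) := by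
    rw [hT, ← Real.rpow_mul hP0.le]; congr 1; ring
  have hT3 : T ^ (1 - ((s : ℝ) - 1)) = (P : ℝ) ^ (κ * ((s : ℝ) - 2)) := by
    rw [hT, ← Real.rpow_mul hP0.le]; congr 1; ring
  have hκs : κ * ((s : ℝ) / 2 - 2) ≤ ((k : ℝ) - 2) * ((s : ℝ) / 2 - 2) :=
    mul_le_mul_of_nonneg_right hκ3 (by linarith)
  have hκs1 : κ * ((s : ℝ) / 2 - 1) ≤ ((k : ℝ) - 2) * ((s : ℝ) / 2 - 1) :=
    mul_le_mul_of_nonneg_right hκ3 (by linarith)
  have hκs2 : κ * ((s : ℝ) - 2) ≤ ((k : ℝ) - 2) * ((s : ℝ) - 2) :=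
    mul_le_mul_of_nonneg_right hκ3 (by linarith)
  have hκs3 : κ * ((s : ℝ) - 1) ≤ ((k : ℝ) - 2) * ((s : ℝ) - 1) :=
    mul_le_mul_of_nonneg_right hκ3 (by linarith)
  -- exponent inequalities
  have b0 : ((P : ℝ) ^ (2 - (k : ℝ) / 2)) ^ s ≤ R := by
    have := rp_le hP1 (2 - (k : ℝ) / 2) s 0 ((s : ℝ) - k) (by nlinarith)
    rwa [Real.rpow_zero, mul_one] at this
  have b1 : ((P : ℝ) ^ (2 - (k : ℝ) / 2)) ^ s * (P : ℝ) ^ (κ * ((s : ℝ) / 2 - 2)) ≤ R :=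
    rp_le hP1 _ s _ _ (by nlinarith)
  have b2 : ((P : ℝ) ^ (2 - (k : ℝ) / 2)) ^ s * (P : ℝ) ^ (κ * ((s : ℝ) / 2 - 1) - x) ≤ R :=
    rp_le hP1 _ s _ _ (by nlinarith)
  have d0 : ((P : ℝ) ^ (2 - (k : ℝ))) ^ s ≤ R := by
    have := rp_le hP1 (2 - (k : ℝ)) s 0 ((s : ℝ) - k) (by nlinarith)
    rwa [Real.rpow_zero, mul_one] at this
  have d1 : ((P : ℝ) ^ (2 - (k : ℝ))) ^ s * (P : ℝ) ^ (κ * ((s : ℝ) - 2)) ≤ R :=
    rp_le hP1 _ s _ _ (by nlinarith)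
  have d2 : ((P : ℝ) ^ (2 - (k : ℝ))) ^ s * (P : ℝ) ^ (κ * ((s : ℝ) - 1) - x) ≤ R :=
    rp_le hP1 _ s _ _ (by nlinarith)
  have hI0 : (0 : ℝ) ≤ I := by positivity
  have hL0 : 0 ≤ L := by positivity
  -- assembling
  have gen : ∀ (c A X Y Z : ℝ), 0 ≤ c → 0 ≤ A → 0 ≤ Y → 0 ≤ Z → A ≤ R → A * Y ≤ R → A * Z ≤ R →
      X ≤ 7 * N + I * (200 * N * (Y + Z)) →
      c * A * X ≤ c * (7 + L * 400) * (N * R * (1 + Real.log P) ^ s) := by
    intro c A X Y Z hc hA hY hZ g0 g1 g2 hX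
    have h1 : A * X ≤ 7 * N * R + I * (200 * N * (R + R)) := by
      calc A * X ≤ A * (7 * N + I * (200 * N * (Y + Z))) := mul_le_mul_of_nonneg_left hX hA
        _ = 7 * N * A + I * (200 * N * (A * Y + A * Z)) := by ring
        _ ≤ 7 * N * R + I * (200 * N * (R + R)) := by gcongr
    have h2 : 7 * N * R + I * (200 * N * (R + R)) ≤
        (7 + L * 400) * (N * R * (1 + Real.log P) ^ s) := by
      have h3 : (0 : ℝ) ≤ N * R := by positivity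
      have h4 : (I : ℝ) ≤ L * (1 + Real.log P) ^ s :=
        hI2.trans (mul_le_mul_of_nonneg_left hlogs hL0)
      have h5 : 7 * N * R ≤ 7 * (N * R * (1 + Real.log P) ^ s) := by nlinarith
      have h6 : I * (200 * N * (R + R)) ≤ L * 400 * (N * R * (1 + Real.log P) ^ s) := by
        calc I * (200 * N * (R + R)) = 400 * (N * R) * I := by ring
          _ ≤ 400 * (N * R) * (L * (1 + Real.log P) ^ s) := by gcongr
          _ = _ := by ring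
      linarith
    calc c * A * X = c * (A * X) := by ring
      _ ≤ c * ((7 + L * 400) * (N * R * (1 + Real.log P) ^ s)) :=
          mul_le_mul_of_nonneg_left (h1.trans h2) hc
      _ = _ := by ring
  have q1 : B1 * (∫ t in E, w b t * ‖Bh N β t‖ ^ 2) ≤ 7 * c1 * (N * R * (1 + Real.log P) ^ s) := by
    have h1 : ∫ t in E, w b t * ‖Bh N β t‖ ^ 2 ≤ 7 * N := by
      have h2 : ∫ t in E, w b t * ‖Bh N β t‖ ^ 2 ≤ ∫ t, w b t * ‖Bh N β t‖ ^ 2 :=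
        setIntegral_le_integral (integrable_w_Bh N β hb0) (Filter.Eventually.of_forall fun t => by
          have := w_nonneg b t
          show 0 ≤ _
          positivity)
      refine h2.trans ((L2_le N β D hD0 hβ hb0).trans ?_)
      have h3 : 1 ≤ Real.sqrt b * D :=
        one_le_mul_of_one_le_of_one_le (Real.one_le_sqrt.mpr hb) hD
      have h4 : 4 / (Real.sqrt b * D) ≤ 4 := div_le_self (by norm_num) h3
      nlinarith
    have h5 : B1 = c1 * R := by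
      rw [hB1, hc1, hR, mul_pow, Real.rpow_sub hP0, Real.rpow_natCast, Real.rpow_natCast]
      ring
    rw [h5]
    have h6 : (0 : ℝ) ≤ N * R := by positivity
    calc c1 * R * (∫ t in E, w b t * ‖Bh N β t‖ ^ 2) ≤ c1 * R * (7 * N) := by gcongr
      _ = 7 * c1 * (N * R * 1) := by ring
      _ ≤ _ := by gcongr
  have q2 : B2 * (∫ t in E, w b t * ‖Bh N β t‖ ^ 2 * |t| ^ (-((s : ℝ) / 2 - 1))) ≤
      c2 * (7 + L * 400) * (N * R * (1 + Real.log P) ^ s) := by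
    have h5 : B2 = c2 * ((P : ℝ) ^ (2 - (k : ℝ) / 2)) ^ s := by
      rw [hB2, hc2, mul_pow]; ring
    rw [h5]
    refine gen c2 _ _ ((P : ℝ) ^ (κ * ((s : ℝ) / 2 - 2))) ((P : ℝ) ^ (κ * ((s : ℝ) / 2 - 1) - x))
      (by positivity) (by positivity) (by positivity) (by positivity) b0 b1 b2 (te2.trans ?_)
    rw [hT2]
    gcongr
  have q3 : B3 * (∫ t in E, w b t * ‖Bh N β t‖ ^ 2 * |t| ^ (-((s : ℝ) - 1))) ≤
      c1 * (7 + L * 400) * (N * R * (1 + Real.log P) ^ s) := by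
    have h5 : B3 = c1 * ((P : ℝ) ^ (2 - (k : ℝ))) ^ s := by
      rw [hB3, hc1, mul_pow]; ring
    rw [h5]
    refine gen c1 _ _ ((P : ℝ) ^ (κ * ((s : ℝ) - 2))) ((P : ℝ) ^ (κ * ((s : ℝ) - 1) - x))
      (by positivity) (by positivity) (by positivity) (by positivity) d0 d1 d2 (te3.trans ?_)
    rw [hT3]
    gcongr
  have h7 : (0 : ℝ) ≤ N * R * (1 + Real.log P) ^ s := by positivity
  calc _ ≤ 7 * c1 * (N * R * (1 + Real.log P) ^ s) + c2 * (7 + L * 400) * (N * R * (1 + Real.log P) ^ s) +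
        c1 * (7 + L * 400) * (N * R * (1 + Real.log P) ^ s) := by linarith
    _ ≤ (7 * c1 + (c1 + c2) * (7 + L * 400) + 1) * (N * R * (1 + Real.log P) ^ s) := by nlinarith
    _ = _ := by ring

end Pool.H48.Wt
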