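import Pool.Agent.H48.Wt.Key2
import Pool.Agent.H48.Wt.MinorB2
import Pool.Agent.H48.Wt.Mean2
import Pool.Agent.H48.Wt.Maj2

/-!
# The probability that a target is missed, with well spaced points
-/

set_option autoImplicit false

namespace Pool.H48.Wt

open MeasureTheory Set Filter Topology Pool.H19.Wa

theorem t1_le (k P : ℕ) (hk : 4 ≤ k) (hP : 1 ≤ P) (κ : ℝ) (hκ3 : κ ≤ (k : ℝ) - 2) :
    t1 k P ≤ (P : ℝ) ^ (-κ) := by
  have hP1 : (1 : ℝ) ≤ P := by exact_mod_cast hP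
  have hP0 : (0 : ℝ) < P := by linarith
  have hk' : (4 : ℝ) ≤ k := by exact_mod_cast hk
  unfold t1
  rw [Real.rpow_neg hP0.le, ← one_div]
  apply one_div_le_one_div_of_le (Real.rpow_pos_of_pos hP0 _)
  have h1 : (P : ℝ) ^ κ ≤ (P : ℝ) ^ (k - 1) := by
    rw [← Real.rpow_natCast]
    apply Real.rpow_le_rpow_of_exponent_le hP1
    rw [Nat.cast_sub (by omega)]
    push_cast
    linarith
  have h2 : (P : ℝ) ^ (k - 1) ≤ (2 * (P : ℝ)) ^ (k - 1) :=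
    pow_le_pow_left₀ hP0.le (by linarith) _
  have h3 : (0 : ℝ) < (2 * (P : ℝ)) ^ (k - 1) := by positivity
  nlinarith

theorem prob3 (k s : ℕ) (hk : 4 ≤ k) (hs : 4 ≤ s) (x : ℝ) (hx : 2 ≤ x) (η ε : ℝ) (hη : 0 < η)
    (hε : 0 < ε) :
    ∃ C : ℝ, 0 < C ∧ ∃ κ0 : ℝ, 0 < κ0 ∧ ∃ P0 : ℕ, ∀ P : ℕ, P0 ≤ P → ∀ tau : ℝ,
      (s : ℝ) * (3 * (P : ℝ) / 2) ^ k ≤ tau → tau ≤ (s : ℝ) * (3 * ((P : ℝ) + 1) / 2) ^ k →
      ∀ (N : ℕ) (β : ℕ → ℝ) (D : ℝ), 0 < N → 1 ≤ D → (P : ℝ) ^ x ≤ D → N * D ≤ κ0 * (P : ℝ) ^ k →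
      (∀ m < N, (m : ℝ) * D ≤ β m ∧ β m < ((m : ℝ) + 1) * D) →
      PP s {al : Fin s → ℝ | ∀ m < N, ∀ x : Fin s → ℕ, (∀ i, P ≤ x i ∧ x i < 2 * P) →
        η ≤ |β m + ∑ i, ((x i : ℝ) + al i) ^ k - tau|} ≤
        ENNReal.ofReal (C / N * (P : ℝ) ^ (-((s : ℝ) - k) + ε)) := by
  have hsk : (4 : ℝ) ≤ s := by exact_mod_cast hs
  have hk4 : (4 : ℝ) ≤ k := by exact_mod_cast hk
  set κ : ℝ := max ((k : ℝ) / 2) (k - x) with hκ
  have hκ1 : (k : ℝ) / 2 ≤ κ := le_max_left _ _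
  have hκ2 : (k : ℝ) - x ≤ κ := le_max_right _ _
  have hκ3 : κ ≤ (k : ℝ) - 2 := max_le (by linarith) (by linarith)
  have hκ0 : 0 ≤ κ := by linarith
  obtain ⟨C1, hC1, h1⟩ := D1 k s hk hs
  obtain ⟨C2, hC2, h2⟩ := D2s k s hk (by omega)
  obtain ⟨CA, hCA, hA⟩ := minA2 k s hk x κ hκ1 hκ2
  obtain ⟨CB, hCB, hB⟩ := minB2 k s hk hs x κ hx hκ0 hκ3
  obtain ⟨c, hc, κ0, hκ00, P1, hm⟩ := mean_lower2 k s (by omega) (by omega)
  set ε1 : ℝ := min (ε / 2) 1 with hε1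
  have hε1p : 0 < ε1 := lt_min (by linarith) one_pos
  have hε1a : ε1 ≤ ε / 2 := min_le_left _ _
  have hε1b : ε1 ≤ 1 := min_le_right _ _
  -- eventual inequalities
  have E1 : ∀ᶠ P : ℕ in atTop, (P : ℝ) ^ ((k : ℝ) + ε1 / 2) *
      Real.exp (-(Real.pi * η ^ 2 * (P : ℝ) ^ ε1)) ≤ c / 8 :=
    exp_small_pr _ _ _ (by positivity) hε1p _ (by positivity)
  have E2 : ∀ᶠ P : ℕ in atTop, 8 * C1 / c ≤ (P : ℝ) ^ (1 - ε1 / 2) :=
    ((tendsto_rpow_atTop (by linarith : 0 < 1 - ε1 / 2)).comp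
      tendsto_natCast_atTop_atTop).eventually_ge_atTop _
  have E3 : ∀ᶠ P : ℕ in atTop, 8 * C2 / c ≤ (P : ℝ) ^ ((s : ℝ) - 1 - ε1 / 2) :=
    ((tendsto_rpow_atTop (by linarith : 0 < (s : ℝ) - 1 - ε1 / 2)).comp
      tendsto_natCast_atTop_atTop).eventually_ge_atTop _
  have E4 := log_pow_le_pr s (ε / 2) (by positivity)
  obtain ⟨P2, hP2⟩ := eventually_atTop.mp ((E1.and E2).and (E3.and E4))
  refine ⟨8 * (CA + CB) / c ^ 2 + 1, by positivity, κ0, hκ00, max (max P1 P2) 1,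
    fun P hP tau ht1 ht2 N β D hN hD hPD hND hβ => ?_⟩
  have hPP1 : P1 ≤ P := le_trans (le_trans (le_max_left _ _) (le_max_left _ _)) hP
  have hPP2 : P2 ≤ P := le_trans (le_trans (le_max_right _ _) (le_max_left _ _)) hP
  have hPP3 : 1 ≤ P := le_trans (le_max_right _ _) hP
  obtain ⟨⟨F1, F2⟩, F3, F4⟩ := hP2 P hPP2
  have hP1 : (1 : ℝ) ≤ P := by exact_mod_cast hPP3
  have hP0 : (0 : ℝ) < P := by linarith
  have hN0 : (0 : ℝ) < N := by exact_mod_cast hN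
  have hD0 : 0 < D := by linarith
  set b : ℝ := (P : ℝ) ^ ε1 with hb
  have hb1 : 1 ≤ b := Real.one_le_rpow hP1 hε1p.le
  have hb0 : 0 < b := by linarith
  set m1 : ℝ := c * (P : ℝ) ^ ((s : ℝ) - k - ε1 / 2) with hm1
  have hm1pos : 0 < m1 := by positivity
  have hsqrt : (Real.sqrt b)⁻¹ = (P : ℝ) ^ (-(ε1 / 2)) := by
    rw [hb, Real.sqrt_eq_rpow, ← Real.rpow_mul hP0.le, Real.rpow_neg hP0.le]
    congr 2
    ring
  have hmean : ∀ m ∈ Finset.range N, m1 ≤ ∫ al, R k P s b (tau - β m) al ∂PP s := by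
    intro m hmN
    have hmN' := Finset.mem_range.mp hmN
    obtain ⟨b1, b2⟩ := hβ m hmN'
    have hm0 : (0 : ℝ) ≤ m * D := by positivity
    have hmN2 : ((m : ℝ) + 1) * D ≤ N * D := by
      have : ((m : ℝ) + 1) ≤ N := by exact_mod_cast hmN'
      exact mul_le_mul_of_nonneg_right this hD0.le
    have := hm P hPP1 b hb1 (tau - β m) (by linarith) (by linarith)
    refine le_trans (le_of_eq ?_) this
    rw [hsqrt, mul_assoc, ← Real.rpow_add hP0, hm1]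
    congr 2
  set m0 : ℝ := N * m1 with hm0
  have hm0pos : 0 < m0 := by positivity
  have hmean' : m0 ≤ ∑ m ∈ Finset.range N, ∫ al, R k P s b (tau - β m) al ∂PP s := by
    calc m0 = ∑ _m ∈ Finset.range N, m1 := by
          rw [Finset.sum_const, Finset.card_range, nsmul_eq_mul]
      _ ≤ _ := Finset.sum_le_sum hmean
  -- small terms
  have S1 : (P : ℝ) ^ s * Real.exp (-(Real.pi * b * η ^ 2)) ≤ m1 / 8 := by
    have hh : (P : ℝ) ^ s = (P : ℝ) ^ ((s : ℝ) - k - ε1 / 2) * (P : ℝ) ^ ((k : ℝ) + ε1 / 2) := by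
      rw [← Real.rpow_add hP0, ← Real.rpow_natCast]
      congr 1
      ring
    rw [hh, hm1]
    have h5 : Real.pi * b * η ^ 2 = Real.pi * η ^ 2 * (P : ℝ) ^ ε1 := by rw [hb]; ring
    rw [h5]
    have h6 : (0 : ℝ) < (P : ℝ) ^ ((s : ℝ) - k - ε1 / 2) := by positivity
    calc _ = (P : ℝ) ^ ((s : ℝ) - k - ε1 / 2) * ((P : ℝ) ^ ((k : ℝ) + ε1 / 2) *
          Real.exp (-(Real.pi * η ^ 2 * (P : ℝ) ^ ε1))) := by ring
      _ ≤ (P : ℝ) ^ ((s : ℝ) - k - ε1 / 2) * (c / 8) := mul_le_mul_of_nonneg_left F1 h6.le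
      _ = _ := by ring
  have S2 : C1 * (P : ℝ) ^ ((s : ℝ) - 1 - k) ≤ m1 / 8 := by
    have hh : (P : ℝ) ^ ((s : ℝ) - k - ε1 / 2) =
        (P : ℝ) ^ ((s : ℝ) - 1 - k) * (P : ℝ) ^ (1 - ε1 / 2) := by
      rw [← Real.rpow_add hP0]
      congr 1
      ring
    rw [hm1, hh]
    have h6 : (0 : ℝ) < (P : ℝ) ^ ((s : ℝ) - 1 - k) := by positivity
    have h7 : 8 * C1 ≤ c * (P : ℝ) ^ (1 - ε1 / 2) := by
      rw [div_le_iff₀ hc] at F2
      linarith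
    nlinarith
  have S3 : C2 * (P : ℝ) ^ (1 - (k : ℝ)) ≤ m1 / 8 := by
    have hh : (P : ℝ) ^ ((s : ℝ) - k - ε1 / 2) =
        (P : ℝ) ^ (1 - (k : ℝ)) * (P : ℝ) ^ ((s : ℝ) - 1 - ε1 / 2) := by
      rw [← Real.rpow_add hP0]
      congr 1
      ring
    rw [hm1, hh]
    have h6 : (0 : ℝ) < (P : ℝ) ^ (1 - (k : ℝ)) := by positivity
    have h7 : 8 * C2 ≤ c * (P : ℝ) ^ ((s : ℝ) - 1 - ε1 / 2) := by
      rw [div_le_iff₀ hc] at F3
      linarith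
    nlinarith
  -- moments
  set S1' : Set ℝ := {t : ℝ | t1 k P < |t| ∧ |t| ≤ (P : ℝ) ^ (-κ)} with hS1'
  set S2' : Set ℝ := {t : ℝ | (P : ℝ) ^ (-κ) < |t|} with hS2'
  set cf := cc b tau N β with hcf
  obtain ⟨I1, J1⟩ := second_moment2 k P s cf (continuous_cc b tau N β) (integrable_cc hb0 tau N β) S1'
  obtain ⟨I2, J2⟩ := second_moment2 k P s cf (continuous_cc b tau N β) (integrable_cc hb0 tau N β) S2'
  simp only [hcf, norm_cc] at J1 J2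
  have K1 := J1.trans (hA P hPP3 b hb1 N β D hD0 hPD hβ)
  have K2 := J2.trans (hB P hPP3 b hb1 N β D hD hPD hβ)
  set FF : (Fin s → ℝ) → ℝ := fun al => ‖∫ t in S1', hh k P s cf al t‖ ^ 2 +
    ‖∫ t in S2', hh k P s cf al t‖ ^ 2 with hFF
  have hFFint : Integrable FF (PP s) := I1.add I2
  have hFFnn : 0 ≤ᵐ[PP s] FF := Eventually.of_forall fun al => by
    simp only [hFF, Pi.zero_apply]; positivity
  have hcheb := mul_meas_ge_le_integral_of_nonneg hFFnn hFFint (m0 ^ 2 / 8)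
  have hint : ∫ al, FF al ∂PP s ≤
      (CA + CB) * N * (P : ℝ) ^ ((s : ℝ) - k) * (1 + Real.log P) ^ s := by
    have : ∫ al, FF al ∂PP s = (∫ al, ‖∫ t in S1', hh k P s cf al t‖ ^ 2 ∂PP s) +
        ∫ al, ‖∫ t in S2', hh k P s cf al t‖ ^ 2 ∂PP s := integral_add I1 I2
    rw [this]
    calc _ ≤ CA * N * (P : ℝ) ^ ((s : ℝ) - k) * (1 + Real.log P) ^ s +
          CB * N * (P : ℝ) ^ ((s : ℝ) - k) * (1 + Real.log P) ^ s := add_le_add K1 K2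
      _ = _ := by ring
  -- the bad set is contained in the Chebyshev set, almost everywhere
  have hsub : PP s {al : Fin s → ℝ | ∀ m < N, ∀ x : Fin s → ℕ, (∀ i, P ≤ x i ∧ x i < 2 * P) →
        η ≤ |β m + ∑ i, ((x i : ℝ) + al i) ^ k - tau|} ≤ PP s {al | m0 ^ 2 / 8 ≤ FF al} := by
    apply measure_mono_ae
    filter_upwards [cube_ae_pr s] with al hal hbad
    have hkey := key2 k P s hb1 tau al η hη N β ((P : ℝ) ^ (-κ)) (t1_le k P hk hPP3 κ hκ3) hbad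
    have a1 := h1 P hPP3 b hb1 al hal
    have a2 := h2 P hPP3 b hb1
    have hge : m0 / 2 ≤ ‖∫ t in S1', hh k P s cf al t‖ + ‖∫ t in S2', hh k P s cf al t‖ := by
      have c1 := mul_le_mul_of_nonneg_left S1 hN0.le
      have c2 := mul_le_mul_of_nonneg_left (a1.trans S2) hN0.le
      have c3 := mul_le_mul_of_nonneg_left (a2.trans S3) hN0.le
      have c4 : N * (m1 / 8) = m0 / 8 := by rw [hm0]; ring
      rw [c4] at c1 c2 c3
      linarith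
    show m0 ^ 2 / 8 ≤ FF al
    simp only [hFF]
    have hsq : (m0 / 2) ^ 2 ≤ (‖∫ t in S1', hh k P s cf al t‖ +
        ‖∫ t in S2', hh k P s cf al t‖) ^ 2 := pow_le_pow_left₀ (by positivity) hge 2
    nlinarith [sq_nonneg (‖∫ t in S1', hh k P s cf al t‖ - ‖∫ t in S2', hh k P s cf al t‖)]
  refine hsub.trans ?_
  rw [← ofReal_measureReal (measure_ne_top _ _)]
  apply ENNReal.ofReal_le_ofReal
  have hm2 : 0 < m0 ^ 2 / 8 := by positivity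
  have hfin : (PP s).real {al | m0 ^ 2 / 8 ≤ FF al} ≤
      ((CA + CB) * N * (P : ℝ) ^ ((s : ℝ) - k) * (1 + Real.log P) ^ s) / (m0 ^ 2 / 8) := by
    rw [le_div_iff₀ hm2, mul_comm]
    exact hcheb.trans hint
  refine hfin.trans ?_
  have hpw : (P : ℝ) ^ ((s : ℝ) - k) * (1 + Real.log P) ^ s ≤
      (P : ℝ) ^ (2 * ((s : ℝ) - k - ε1 / 2)) * (P : ℝ) ^ (-((s : ℝ) - k) + ε) := by
    calc _ ≤ (P : ℝ) ^ ((s : ℝ) - k) * (P : ℝ) ^ (ε / 2) :=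
          mul_le_mul_of_nonneg_left F4 (by positivity)
      _ = (P : ℝ) ^ ((s : ℝ) - k + ε / 2) := by rw [← Real.rpow_add hP0]
      _ ≤ (P : ℝ) ^ (2 * ((s : ℝ) - k - ε1 / 2) + (-((s : ℝ) - k) + ε)) := by
          apply Real.rpow_le_rpow_of_exponent_le hP1
          linarith
      _ = _ := by rw [Real.rpow_add hP0]
  have hm0sq : m0 ^ 2 = N ^ 2 * (c ^ 2 * (P : ℝ) ^ (2 * ((s : ℝ) - k - ε1 / 2))) := by
    rw [hm0, mul_pow, hm1, mul_pow c, ← Real.rpow_natCast ((P : ℝ) ^ ((s : ℝ) - k - ε1 / 2)),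
      ← Real.rpow_mul hP0.le]
    congr 3
    push_cast
    ring
  rw [div_le_iff₀ hm2, hm0sq]
  have hY : 0 < (P : ℝ) ^ (2 * ((s : ℝ) - k - ε1 / 2)) := by positivity
  have hZ : 0 < (P : ℝ) ^ (-((s : ℝ) - k) + ε) := by positivity
  calc (CA + CB) * N * (P : ℝ) ^ ((s : ℝ) - k) * (1 + Real.log P) ^ s
      = (CA + CB) * N * ((P : ℝ) ^ ((s : ℝ) - k) * (1 + Real.log P) ^ s) := by ring
    _ ≤ (CA + CB) * N * ((P : ℝ) ^ (2 * ((s : ℝ) - k - ε1 / 2)) * (P : ℝ) ^ (-((s : ℝ) - k) + ε)) :=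
        mul_le_mul_of_nonneg_left hpw (by positivity)
    _ = (8 * (CA + CB) / c ^ 2) / N * (P : ℝ) ^ (-((s : ℝ) - k) + ε) *
        (N ^ 2 * (c ^ 2 * (P : ℝ) ^ (2 * ((s : ℝ) - k - ε1 / 2))) / 8) := by
        field_simp
    _ ≤ (8 * (CA + CB) / c ^ 2 + 1) / N * (P : ℝ) ^ (-((s : ℝ) - k) + ε) *
        (N ^ 2 * (c ^ 2 * (P : ℝ) ^ (2 * ((s : ℝ) - k - ε1 / 2))) / 8) := by
        apply mul_le_mul_of_nonneg_right _ (by positivity)
        apply mul_le_mul_of_nonneg_right _ hZ.le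
        gcongr
        linarith

end Pool.H48.Wt
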