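import Pool.Agent.H48.Ws.Base
import Pool.Agent.H48.Wt.Prob3
import Pool.Agent.H48.Wt.Gap

/-!
# The base: a set with small gaps and s shifted powers
-/

set_option autoImplicit false

namespace Pool.H48.Wt

open MeasureTheory Set Filter Topology Pool.H48.Ws

/-- the probability that a large real is missed -/
theorem miss2 (A : Set ℝ) (k s M : ℕ) (hk : 4 ≤ k) (hs : 4 ≤ s) (K δ0 x : ℝ) (hK : 0 < K)
    (hδ00 : 0 ≤ δ0) (hxδ : k * δ0 ≤ x) (hx : 2 ≤ x) (hxk : x < k)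
    (hA : ∀ t : ℝ, 0 ≤ t → ∃ n ∈ A, n ≤ t ∧ t - n ≤ K * (1 + t) ^ δ0) (η ε : ℝ) (hη : 0 < η)
    (hε : 0 < ε) (hε1 : ε < (s : ℝ) - x) :
    ∃ C : ℝ, 0 < C ∧ ∃ m0 : ℕ, ∀ m : ℕ, m0 ≤ m → ∀ τ ∈ D m,
      Pool.H19.Wa.PP s {a | τ ∈ B A k s M η a} ≤
        ENNReal.ofReal (C * (2 : ℝ) ^ (-(((s : ℝ) - x - ε) / k * m))) := by
  obtain ⟨C1, hC1, κ0, hκ0, P0, hP0⟩ := prob3 k s hk hs x hx η ε hη hε
  obtain ⟨K', hK', hpts⟩ := points A k K δ0 x κ0 hK hδ00 hxδ hκ0 hA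
  have hk0 : (0 : ℝ) < k := by exact_mod_cast (by omega : 0 < k)
  have hs0 : (0 : ℝ) < s := by exact_mod_cast (by omega : 0 < s)
  have hK'0 : 0 < K' := by linarith
  set c0 : ℝ := (1 / (s : ℝ)) ^ ((1 : ℝ) / k) with hc0
  have hc0p : 0 < c0 := by positivity
  -- enough points
  have hE : ∀ᶠ P : ℕ in atTop, 2 * K' / κ0 ≤ (P : ℝ) ^ ((k : ℝ) - x) :=
    ((tendsto_rpow_atTop (by linarith : 0 < (k : ℝ) - x)).comp
      tendsto_natCast_atTop_atTop).eventually_ge_atTop _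
  obtain ⟨P1, hP1e⟩ := eventually_atTop.mp hE
  -- lower bound for the scale
  have hT : Tendsto (fun m : ℕ => (2 : ℝ) ^ ((m : ℝ) / k)) atTop atTop := by
    have h1 : ∀ m : ℕ, (2 : ℝ) ^ ((m : ℝ) / k) = ((2 : ℝ) ^ ((1 : ℝ) / k)) ^ m := by
      intro m
      rw [← Real.rpow_natCast, ← Real.rpow_mul (by norm_num)]
      congr 1
      ring
    simp_rw [h1]
    exact tendsto_pow_atTop_atTop_of_one_lt (Real.one_lt_rpow (by norm_num) (by positivity))
  obtain ⟨m0, hm0⟩ := eventually_atTop.mp (hT.eventually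
    (eventually_ge_atTop (((P0 + P1 + M + 2 : ℕ) : ℝ) * 3 / c0)))
  refine ⟨C1 * (2 * K' / κ0) * (c0 / 3) ^ (-((s : ℝ) - x) + ε), by positivity, m0,
    fun m hm τ hτ => ?_⟩
  have hτ1 : (2 : ℝ) ^ m ≤ τ := hτ.1
  have hτ0 : 0 ≤ τ := le_trans (by positivity) hτ1
  obtain ⟨P, h1, h2, h3⟩ := scale k s (by omega) (by omega) τ hτ0
  have h4 : c0 * (2 : ℝ) ^ ((m : ℝ) / k) ≤ (τ / s) ^ ((1 : ℝ) / k) := by
    have e1 : c0 * (2 : ℝ) ^ ((m : ℝ) / k) = ((2 : ℝ) ^ m / s) ^ ((1 : ℝ) / k) := by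
      rw [hc0, div_eq_mul_one_div ((2 : ℝ) ^ m), Real.mul_rpow (by positivity) (by positivity),
        ← Real.rpow_natCast 2 m, ← Real.rpow_mul (by norm_num), mul_one_div]
      ring
    rw [e1]
    apply Real.rpow_le_rpow (by positivity) _ (by positivity)
    gcongr
  have h5 := hm0 m hm
  rw [div_le_iff₀ hc0p] at h5
  push_cast at h5
  have hz0 : (0 : ℝ) ≤ (P0 : ℝ) := by positivity
  have hz1 : (0 : ℝ) ≤ (P1 : ℝ) := by positivity
  have hz2 : (0 : ℝ) ≤ (M : ℝ) := by positivity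
  have h6 : (2 : ℝ) ≤ c0 * (2 : ℝ) ^ ((m : ℝ) / k) * (1 / 3) := by nlinarith
  have h7 : c0 / 3 * (2 : ℝ) ^ ((m : ℝ) / k) ≤ P := by
    have : (2 / 3 : ℝ) * (c0 * (2 : ℝ) ^ ((m : ℝ) / k)) - 1 ≤ P := by linarith
    linarith
  have h8 : ((P0 + P1 + M + 2 : ℕ) : ℝ) ≤ P := by
    push_cast
    linarith
  have h9 : P0 + P1 + M + 2 ≤ P := by exact_mod_cast h8
  have hPpos : (0 : ℝ) < P := by exact_mod_cast (by omega : 0 < P)
  have hPone : (1 : ℝ) ≤ P := by exact_mod_cast (by omega : 1 ≤ P)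
  -- the points
  set Dd : ℝ := K' * (P : ℝ) ^ x with hDd
  have hPx : 1 ≤ (P : ℝ) ^ x := Real.one_le_rpow hPone (by linarith)
  have hDd0 : 0 < Dd := by positivity
  have hDd1 : (P : ℝ) ^ x ≤ Dd := by
    rw [hDd]
    nlinarith
  obtain ⟨β, hβ⟩ := hpts P (by omega)
  set N : ℕ := ⌊κ0 * (P : ℝ) ^ k / Dd⌋₊ with hN
  have hNle : (N : ℝ) ≤ κ0 * (P : ℝ) ^ k / Dd := Nat.floor_le (by positivity)
  have hND : N * Dd ≤ κ0 * (P : ℝ) ^ k := by
    rwa [le_div_iff₀ hDd0] at hNle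
  have hratio : κ0 * (P : ℝ) ^ k / Dd = κ0 / K' * (P : ℝ) ^ ((k : ℝ) - x) := by
    rw [hDd, Real.rpow_sub hPpos, Real.rpow_natCast]
    field_simp
  have hr2 : 2 ≤ κ0 / K' * (P : ℝ) ^ ((k : ℝ) - x) := by
    have h10 := hP1e P (by omega)
    rw [div_le_iff₀ hκ0] at h10
    rw [div_mul_eq_mul_div, le_div_iff₀ hK'0]
    linarith
  have hNge : κ0 / (2 * K') * (P : ℝ) ^ ((k : ℝ) - x) ≤ N := by
    have h10 : κ0 * (P : ℝ) ^ k / Dd < N + 1 := Nat.lt_floor_add_one _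
    rw [hratio] at h10
    have h11 : κ0 / (2 * K') * (P : ℝ) ^ ((k : ℝ) - x) = κ0 / K' * (P : ℝ) ^ ((k : ℝ) - x) / 2 := by
      field_simp
    rw [h11]
    linarith
  have hN0 : 0 < N := by
    have : (0 : ℝ) < N := lt_of_lt_of_le (by positivity) hNge
    exact_mod_cast this
  have hN0' : (0 : ℝ) < N := by exact_mod_cast hN0
  have hβ' : ∀ j < N, β j ∈ A ∧ (j : ℝ) * Dd ≤ β j ∧ β j < ((j : ℝ) + 1) * Dd := by
    intro j hj
    apply hβ j
    have : ((j : ℝ) + 1) ≤ N := by exact_mod_cast hj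
    exact (mul_le_mul_of_nonneg_right this hDd0.le).trans hND
  have hsub : {a : Fin s → ℝ | τ ∈ B A k s M η a} ⊆ {al : Fin s → ℝ | ∀ j < N, ∀ x : Fin s → ℕ,
      (∀ i, P ≤ x i ∧ x i < 2 * P) → η ≤ |β j + ∑ i, ((x i : ℝ) + al i) ^ k - τ|} := by
    intro a ha j hj y hy
    exact ha (β j) (hβ' j hj).1 y (fun i => by have := (hy i).1; omega)
  refine (measure_mono hsub).trans ((hP0 P (by omega) τ h1 h2 N β Dd hN0 (by linarith) hDd1 hND
    (fun j hj => (hβ' j hj).2)).trans ?_)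
  apply ENNReal.ofReal_le_ofReal
  have hneg : -((s : ℝ) - x) + ε ≤ 0 := by linarith
  have h10 : (P : ℝ) ^ (-((s : ℝ) - x) + ε) ≤
      (c0 / 3 * (2 : ℝ) ^ ((m : ℝ) / k)) ^ (-((s : ℝ) - x) + ε) :=
    Real.rpow_le_rpow_of_nonpos (by positivity) h7 hneg
  have h11 : C1 / N * (P : ℝ) ^ (-((s : ℝ) - k) + ε) ≤
      C1 * (2 * K' / κ0) * (P : ℝ) ^ (-((s : ℝ) - x) + ε) := by
    have e1 : (P : ℝ) ^ (-((s : ℝ) - k) + ε) =
        (P : ℝ) ^ ((k : ℝ) - x) * (P : ℝ) ^ (-((s : ℝ) - x) + ε) := by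
      rw [← Real.rpow_add hPpos]
      congr 1
      ring
    have e2 : (P : ℝ) ^ ((k : ℝ) - x) ≤ 2 * K' / κ0 * N := by
      rw [div_mul_eq_mul_div, le_div_iff₀ hκ0]
      rw [div_mul_eq_mul_div, div_le_iff₀ (by positivity)] at hNge
      linarith
    rw [e1]
    have h12 : 0 < (P : ℝ) ^ (-((s : ℝ) - x) + ε) := by positivity
    calc C1 / N * ((P : ℝ) ^ ((k : ℝ) - x) * (P : ℝ) ^ (-((s : ℝ) - x) + ε))
        ≤ C1 / N * ((2 * K' / κ0 * N) * (P : ℝ) ^ (-((s : ℝ) - x) + ε)) := by gcongr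
      _ = _ := by field_simp
  calc C1 / N * (P : ℝ) ^ (-((s : ℝ) - k) + ε)
      ≤ C1 * (2 * K' / κ0) * (P : ℝ) ^ (-((s : ℝ) - x) + ε) := h11
    _ ≤ C1 * (2 * K' / κ0) * (c0 / 3 * (2 : ℝ) ^ ((m : ℝ) / k)) ^ (-((s : ℝ) - x) + ε) := by gcongr
    _ = C1 * (2 * K' / κ0) * (c0 / 3) ^ (-((s : ℝ) - x) + ε) *
        (2 : ℝ) ^ (-(((s : ℝ) - x - ε) / k * m)) := by
        rw [Real.mul_rpow (by positivity) (by positivity), ← Real.rpow_mul (by norm_num)]
        have e2 : (m : ℝ) / k * (-((s : ℝ) - x) + ε) = -(((s : ℝ) - x - ε) / k * m) := by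
          field_simp
          ring
        rw [e2]
        ring

theorem base2 (A : Set ℝ) (k s M : ℕ) (hk : 4 ≤ k) (hs : 4 ≤ s) (K δ0 x : ℝ) (hK : 0 < K)
    (hδ00 : 0 ≤ δ0) (hxδ : k * δ0 ≤ x) (hx : 2 ≤ x) (hxk : x < k) (hxs : x < s)
    (hA : ∀ t : ℝ, 0 ≤ t → ∃ n ∈ A, n ≤ t ∧ t - n ≤ K * (1 + t) ^ δ0) (η γ : ℝ) (hη : 0 < η)
    (hγ : 1 - ((s : ℝ) - x) / k < γ) :
    ∀ᵐ a ∂Pool.H19.Wa.PP s, W A k s M η γ a ≠ ⊤ := by
  have hk0 : (0 : ℝ) < k := by exact_mod_cast (by omega : 0 < k)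
  set δ : ℝ := γ - 1 + ((s : ℝ) - x) / k with hδ
  have hδ0 : 0 < δ := by linarith
  set ε : ℝ := min (k * δ / 2) (((s : ℝ) - x) / 2) with hε
  have hε0 : 0 < ε := lt_min (by positivity) (by linarith)
  have hε1 : ε < (s : ℝ) - x := lt_of_le_of_lt (min_le_right _ _) (by linarith)
  have hε2 : ε / k ≤ δ / 2 := by
    rw [div_le_iff₀ hk0]
    have := min_le_left (k * δ / 2) (((s : ℝ) - x) / 2)
    rw [← hε] at this
    linarith
  obtain ⟨C, hC, m0, hm0⟩ := miss2 A k s M hk hs K δ0 x hK hδ00 hxδ hx hxk hA η ε hη hε0 hε1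
  have hVm : ∀ m : ℕ, Measurable (fun a : Fin s → ℝ => V A k s M η a m) :=
    fun m => measurable_V A k s M η m
  have hI : ∀ m, m0 ≤ m → ∫⁻ a, V A k s M η a m ∂Pool.H19.Wa.PP s ≤
      ENNReal.ofReal (C * (2 : ℝ) ^ ((1 - ((s : ℝ) - x - ε) / k) * m)) := by
    intro m hm
    have hS : MeasurableSet ({p : (Fin s → ℝ) × ℝ | p.2 ∈ B A k s M η p.1} ∩
        {p : (Fin s → ℝ) × ℝ | p.2 ∈ D m}) :=
      (isClosed_joint A k s M η).measurableSet.inter (measurable_snd (measurableSet_D m))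
    have h1 : ∫⁻ a, V A k s M η a m ∂Pool.H19.Wa.PP s =
        ∫⁻ τ, Pool.H19.Wa.PP s ((fun a => (a, τ)) ⁻¹' ({p : (Fin s → ℝ) × ℝ |
          p.2 ∈ B A k s M η p.1} ∩ {p : (Fin s → ℝ) × ℝ | p.2 ∈ D m})) := by
      rw [← Measure.prod_apply_symm hS, Measure.prod_apply hS]
      rfl
    rw [h1]
    calc _ ≤ ∫⁻ τ, (D m).indicator (fun _ => ENNReal.ofReal (C * (2 : ℝ) ^
            (-(((s : ℝ) - x - ε) / k * m)))) τ := by
          apply lintegral_mono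
          intro τ
          by_cases hτ : τ ∈ D m
          · simp only [indicator_of_mem hτ]
            refine le_trans (measure_mono ?_) (hm0 m hm τ hτ)
            intro a ha
            exact ha.1
          · simp only [indicator_of_notMem hτ]
            have : (fun a : Fin s → ℝ => (a, τ)) ⁻¹' ({p : (Fin s → ℝ) × ℝ |
                p.2 ∈ B A k s M η p.1} ∩ {p : (Fin s → ℝ) × ℝ | p.2 ∈ D m}) = ∅ := by
              ext a
              simp only [mem_preimage, mem_inter_iff, mem_ofPred_eq, mem_empty_iff_false,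
                iff_false, not_and]
              intro _ h
              exact hτ h
            rw [this]
            simp
      _ = ENNReal.ofReal (C * (2 : ℝ) ^ ((1 - ((s : ℝ) - x - ε) / k) * m)) := by
          rw [lintegral_indicator (measurableSet_D m), setLIntegral_const, volume_D,
            ← ENNReal.ofReal_mul (by positivity)]
          congr 1
          rw [mul_assoc, ← Real.rpow_natCast 2 m, ← Real.rpow_add (by norm_num)]
          congr 2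
          ring
  have hfin : ∫⁻ a, W A k s M η γ a ∂Pool.H19.Wa.PP s ≠ ⊤ := by
    unfold W
    rw [lintegral_tsum (fun m => ((hVm m).const_mul _).aemeasurable)]
    have hterm : ∀ m : ℕ, ∫⁻ a, ENNReal.ofReal ((2 : ℝ) ^ (-(γ * m))) * V A k s M η a m
        ∂Pool.H19.Wa.PP s = ENNReal.ofReal ((2 : ℝ) ^ (-(γ * m))) *
        ∫⁻ a, V A k s M η a m ∂Pool.H19.Wa.PP s :=
      fun m => lintegral_const_mul _ (hVm m)
    simp only [hterm]
    rw [← Summable.sum_add_tsum_nat_add' (k := m0) ENNReal.summable]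
    apply ENNReal.add_ne_top.mpr
    constructor
    · rw [ENNReal.sum_ne_top]
      intro m _
      apply ENNReal.mul_ne_top ENNReal.ofReal_ne_top
      have h8 : ∫⁻ a, V A k s M η a m ∂Pool.H19.Wa.PP s ≤
          ∫⁻ _a, ENNReal.ofReal ((2 : ℝ) ^ m) ∂Pool.H19.Wa.PP s :=
        lintegral_mono (fun a => V_le A k s M η a m)
      refine ne_top_of_le_ne_top ?_ h8
      simp
    · set r : ℝ := (2 : ℝ) ^ (1 - ((s : ℝ) - x - ε) / k - γ) with hr
      have hr0 : 0 < r := by positivity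
      have hexp : 1 - ((s : ℝ) - x - ε) / k - γ < 0 := by
        have e1 : ((s : ℝ) - x - ε) / k = ((s : ℝ) - x) / k - ε / k := by ring
        rw [e1]
        linarith
      have hr1 : r < 1 := Real.rpow_lt_one_of_one_lt_of_neg (by norm_num) hexp
      have h9 : ∀ m : ℕ, ENNReal.ofReal ((2 : ℝ) ^ (-(γ * ((m + m0 : ℕ) : ℝ)))) *
          ∫⁻ a, V A k s M η a (m + m0) ∂Pool.H19.Wa.PP s ≤
          ENNReal.ofReal (C * r ^ (m + m0)) := by
        intro m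
        calc _ ≤ ENNReal.ofReal ((2 : ℝ) ^ (-(γ * ((m + m0 : ℕ) : ℝ)))) *
              ENNReal.ofReal (C * (2 : ℝ) ^ ((1 - ((s : ℝ) - x - ε) / k) * ((m + m0 : ℕ) : ℝ))) := by
              gcongr
              exact hI (m + m0) (by omega)
          _ = _ := by
              rw [← ENNReal.ofReal_mul (by positivity), hr, ← Real.rpow_natCast,
                ← Real.rpow_mul (by norm_num), mul_left_comm, ← Real.rpow_add (by norm_num)]
              congr 3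
              ring
      refine ne_top_of_le_ne_top ?_ (ENNReal.tsum_le_tsum h9)
      apply Summable.tsum_ofReal_ne_top
      have : Summable (fun m : ℕ => C * r ^ m) := (summable_geometric_of_lt_one hr0.le hr1).mul_left C
      exact (summable_nat_add_iff m0).2 this
  filter_upwards [ae_lt_top (measurable_W A k s M η γ) hfin] with a ha
  exact ha.ne

end Pool.H48.Wt
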