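import Pool.Agent.H19.Wa.Rep

/-!
# The exponential sum over well spaced points

`Bh N β t = ∑_{m < N} e (t β_m)` where `β_m` lies in `[m D, (m+1) D)`.
-/

set_option autoImplicit false

namespace Pool.H48.Wt

open MeasureTheory Set Pool.H19.Wa

noncomputable section

/-- exponential sum over the points -/
def Bh (N : ℕ) (β : ℕ → ℝ) (t : ℝ) : ℂ := ∑ m ∈ Finset.range N, e (t * β m)

end

theorem continuous_Bh (N : ℕ) (β : ℕ → ℝ) : Continuous (Bh N β) := by
  unfold Bh
  exact continuous_finsetSum _ (fun m _ => continuous_e.comp (by fun_prop))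

theorem norm_Bh_le (N : ℕ) (β : ℕ → ℝ) (t : ℝ) : ‖Bh N β t‖ ≤ N := by
  unfold Bh
  refine (norm_sum_le _ _).trans ?_
  simp [norm_e]

/-- `exp (-x^2)` against `exp (-x)` -/
theorem exp_sq_le (x : ℝ) : Real.exp (-(x ^ 2)) ≤ 2 * Real.exp (-x) := by
  have h1 : Real.exp (-(x ^ 2)) ≤ Real.exp (1 / 4 + -x) := by
    apply Real.exp_le_exp.mpr
    nlinarith [sq_nonneg (x - 1 / 2)]
  have h2 : Real.exp (1 / 4 : ℝ) ≤ 2 := by
    have h3 : Real.exp (1 / 4 : ℝ) ^ 4 = Real.exp 1 := by
      rw [← Real.exp_nat_mul]; norm_num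
    by_contra hcon
    push Not at hcon
    have h4 : (2 : ℝ) ^ 4 < Real.exp (1 / 4 : ℝ) ^ 4 := pow_lt_pow_left₀ hcon (by norm_num) (by norm_num)
    rw [h3] at h4
    have := Real.exp_one_lt_d9
    norm_num at h4
    linarith
  rw [Real.exp_add] at h1
  have h5 : 0 < Real.exp (-x) := Real.exp_pos _
  nlinarith

/-- a sum of exponentials -/
theorem sum_exp_le (z : ℝ) (hz : 0 < z) (n : ℕ) :
    ∑ l ∈ Finset.range n, Real.exp (-(z * ((l : ℝ) + 1))) ≤ 1 / z := by
  set q : ℝ := Real.exp (-z) with hq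
  have hq0 : 0 < q := Real.exp_pos _
  have hq1 : q < 1 := by rw [hq, Real.exp_lt_one_iff]; linarith
  have h1 : ∀ l : ℕ, Real.exp (-(z * ((l : ℝ) + 1))) = q * q ^ l := by
    intro l
    rw [hq, ← Real.exp_nat_mul, ← Real.exp_add]
    congr 1
    ring
  simp_rw [h1]
  rw [← Finset.mul_sum, geom_sum_eq hq1.ne]
  have h2 : (q ^ n - 1) / (q - 1) = (1 - q ^ n) / (1 - q) := by
    rw [← neg_div_neg_eq]; congr 1 <;> ring
  rw [h2]
  have h3 : 0 < 1 - q := by linarith
  have h4 : z * q ≤ 1 - q := by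
    have h5 : 1 + z ≤ Real.exp z := by linarith [Real.add_one_le_exp z]
    have h6 : q * Real.exp z = 1 := by rw [hq, ← Real.exp_add]; simp
    nlinarith
  have h5 : 0 < q ^ n := by positivity
  rw [mul_div_assoc', div_le_div_iff₀ h3 hz]
  have h6 : 0 ≤ z * q * q ^ n := by positivity
  nlinarith

/-- the Gaussian sum over well spaced points -/
theorem gauss_sum (N : ℕ) (β : ℕ → ℝ) (D : ℝ) (hD : 0 < D)
    (hβ : ∀ m < N, (m : ℝ) * D ≤ β m ∧ β m < ((m : ℝ) + 1) * D) (b : ℝ) (hb : 0 < b) (m : ℕ)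
    (hm : m < N) :
    ∑ m' ∈ Finset.range N, G b (β m - β m') ≤ 3 + 4 / (Real.sqrt b * D) := by
  set z : ℝ := Real.sqrt b * D with hz
  have hsb : 0 < Real.sqrt b := Real.sqrt_pos.mpr hb
  have hz0 : 0 < z := by positivity
  have hGle : ∀ u : ℝ, G b u ≤ 1 := by
    intro u
    unfold G
    apply Real.exp_le_one_iff.2
    have : 0 ≤ Real.pi * b * u ^ 2 := by positivity
    linarith
  -- bound for separated points
  have hfar : ∀ (l : ℕ) (u : ℝ), ((l : ℝ) + 1) * D ≤ |u| → G b u ≤
      2 * Real.exp (-(z * ((l : ℝ) + 1))) := by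
    intro l u hu
    have h1 : G b u ≤ Real.exp (-((z * ((l : ℝ) + 1)) ^ 2)) := by
      unfold G
      apply Real.exp_le_exp.mpr
      apply neg_le_neg
      have h2 : (((l : ℝ) + 1) * D) ^ 2 ≤ u ^ 2 := by
        rw [← sq_abs u]
        exact pow_le_pow_left₀ (by positivity) hu 2
      have h3 : (z * ((l : ℝ) + 1)) ^ 2 = b * (((l : ℝ) + 1) * D) ^ 2 := by
        rw [hz, mul_pow, mul_pow, mul_pow, Real.sq_sqrt hb.le]
        ring
      rw [h3]
      have h4 : (1 : ℝ) ≤ Real.pi := by linarith [Real.pi_gt_three]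
      have h5 : 0 ≤ b * u ^ 2 := by positivity
      calc b * (((l : ℝ) + 1) * D) ^ 2 ≤ b * u ^ 2 := by gcongr
        _ ≤ Real.pi * (b * u ^ 2) := by nlinarith
        _ = _ := by ring
    exact h1.trans (exp_sq_le _)
  -- split
  have hsplit : Finset.range N ⊆ ((Finset.range 3).image (fun i => m + i - 1)) ∪
      (((Finset.range N).image (fun l => m + 2 + l)) ∪ ((Finset.range (m - 1)).image (fun l => m - 2 - l))) := by
    intro m' hm'
    rw [Finset.mem_range] at hm'
    simp only [Finset.mem_union, Finset.mem_image, Finset.mem_range]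
    rcases Nat.lt_or_ge m' (m + 2) with h | h
    · rcases Nat.lt_or_ge (m' + 1) m with h' | h'
      · right; right
        exact ⟨m - 2 - m', by omega, by omega⟩
      · left
        exact ⟨m' + 1 - m, by omega, by omega⟩
    · right; left
      exact ⟨m' - (m + 2), by omega, by omega⟩
  have hG0 : ∀ m' : ℕ, 0 ≤ (if m' < N then G b (β m - β m') else 0) := by
    intro m'
    split
    · exact G_nonneg _ _
    · exact le_rfl
  have e1 : ∑ m' ∈ Finset.range N, G b (β m - β m') =
      ∑ m' ∈ Finset.range N, (if m' < N then G b (β m - β m') else 0) := by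
    refine Finset.sum_congr rfl fun m' hm' => ?_
    rw [if_pos (Finset.mem_range.mp hm')]
  rw [e1]
  refine (Finset.sum_le_sum_of_subset_of_nonneg hsplit (fun m' _ _ => hG0 m')).trans ?_
  have hun : ∀ (s t : Finset ℕ) (F : ℕ → ℝ), (∀ i, 0 ≤ F i) →
      ∑ i ∈ s ∪ t, F i ≤ ∑ i ∈ s, F i + ∑ i ∈ t, F i := by
    intro s t F hF
    rw [← Finset.sum_union_inter]
    have : 0 ≤ ∑ i ∈ s ∩ t, F i := Finset.sum_nonneg fun i _ => hF i
    linarith
  have him : ∀ (s : Finset ℕ) (g : ℕ → ℕ) (F : ℕ → ℝ), (∀ i, 0 ≤ F i) →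
      ∑ i ∈ s.image g, F i ≤ ∑ i ∈ s, F (g i) := by
    intro s g F hF
    exact Finset.sum_image_le_of_nonneg (fun i _ => hF _)
  refine (hun _ _ _ hG0).trans ?_
  have p1 : ∑ i ∈ (Finset.range 3).image (fun i => m + i - 1),
      (if i < N then G b (β m - β i) else 0) ≤ 3 := by
    refine (him _ _ _ hG0).trans ?_
    calc _ ≤ ∑ _i ∈ Finset.range 3, (1 : ℝ) := by
          refine Finset.sum_le_sum fun i _ => ?_
          split
          · exact hGle _
          · norm_num
      _ = 3 := by simp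
  have p2 : ∑ i ∈ (Finset.range N).image (fun l => m + 2 + l),
      (if i < N then G b (β m - β i) else 0) ≤ 2 * (1 / z) := by
    refine (him _ _ _ hG0).trans ?_
    calc _ ≤ ∑ l ∈ Finset.range N, 2 * Real.exp (-(z * ((l : ℝ) + 1))) := by
          refine Finset.sum_le_sum fun l _ => ?_
          split
          · rename_i hl
            apply hfar
            obtain ⟨a1, a2⟩ := hβ m hm
            obtain ⟨a3, a4⟩ := hβ (m + 2 + l) hl
            push_cast at a3
            have : ((l : ℝ) + 1) * D ≤ β (m + 2 + l) - β m := by nlinarith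
            rw [abs_sub_comm]
            exact this.trans (le_abs_self _)
          · positivity
      _ ≤ _ := by
          rw [← Finset.mul_sum]
          exact mul_le_mul_of_nonneg_left (sum_exp_le z hz0 N) (by norm_num)
  have p3 : ∑ i ∈ (Finset.range (m - 1)).image (fun l => m - 2 - l),
      (if i < N then G b (β m - β i) else 0) ≤ 2 * (1 / z) := by
    refine (him _ _ _ hG0).trans ?_
    calc _ ≤ ∑ l ∈ Finset.range (m - 1), 2 * Real.exp (-(z * ((l : ℝ) + 1))) := by
          refine Finset.sum_le_sum fun l hl => ?_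
          rw [Finset.mem_range] at hl
          split
          · rename_i hl2
            apply hfar
            obtain ⟨a1, a2⟩ := hβ m hm
            obtain ⟨a3, a4⟩ := hβ (m - 2 - l) hl2
            have e2 : (((m - 2 - l : ℕ) : ℝ)) = (m : ℝ) - 2 - l := by
              rw [Nat.cast_sub (by omega), Nat.cast_sub (by omega)]
              norm_num
            rw [e2] at a4
            have : ((l : ℝ) + 1) * D ≤ β m - β (m - 2 - l) := by nlinarith
            exact this.trans (le_abs_self _)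
          · positivity
      _ ≤ _ := by
          rw [← Finset.mul_sum]
          exact mul_le_mul_of_nonneg_left (sum_exp_le z hz0 (m - 1)) (by norm_num)
  refine (add_le_add p1 ((hun _ _ _ hG0).trans (add_le_add p2 p3))).trans ?_
  have : 4 / z = 2 * (1 / z) + 2 * (1 / z) := by ring
  rw [this]

theorem integrable_w_Bh (N : ℕ) (β : ℕ → ℝ) {b : ℝ} (hb : 0 < b) :
    Integrable (fun t : ℝ => w b t * ‖Bh N β t‖ ^ 2) := by
  refine ((integrable_w hb).mul_const (((N : ℝ)) ^ 2)).mono' ?_ (Filter.Eventually.of_forall fun t => ?_)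
  · exact ((continuous_w b).mul ((continuous_Bh N β).norm.pow 2)).aestronglyMeasurable
  · rw [Real.norm_of_nonneg (mul_nonneg (w_nonneg b t) (by positivity))]
    exact mul_le_mul_of_nonneg_left (pow_le_pow_left₀ (norm_nonneg _) (norm_Bh_le N β t) 2)
      (w_nonneg b t)

theorem L2_eq (N : ℕ) (β : ℕ → ℝ) {b : ℝ} (hb : 0 < b) :
    ∫ t : ℝ, w b t * ‖Bh N β t‖ ^ 2 =
      ∑ m ∈ Finset.range N, ∑ m' ∈ Finset.range N, G b (β m - β m') := by
  have h1 : ((∫ t : ℝ, w b t * ‖Bh N β t‖ ^ 2 : ℝ) : ℂ) =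
      ((∑ m ∈ Finset.range N, ∑ m' ∈ Finset.range N, G b (β m - β m') : ℝ) : ℂ) := by
    rw [← integral_complex_ofReal]
    have h2 : ∀ t : ℝ, ((w b t * ‖Bh N β t‖ ^ 2 : ℝ) : ℂ) =
        ∑ m ∈ Finset.range N, ∑ m' ∈ Finset.range N, ((w b t : ℝ) : ℂ) * e (t * (β m - β m')) := by
      intro t
      have h3 : ((‖Bh N β t‖ ^ 2 : ℝ) : ℂ) = Bh N β t * (starRingEnd ℂ) (Bh N β t) := by
        rw [Complex.mul_conj, Complex.normSq_eq_norm_sq]
      rw [Complex.ofReal_mul, h3]
      unfold Bh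
      rw [map_sum, Finset.sum_mul_sum, Finset.mul_sum]
      refine Finset.sum_congr rfl fun m _ => ?_
      rw [Finset.mul_sum]
      refine Finset.sum_congr rfl fun m' _ => ?_
      rw [← e_neg, ← e_add]
      congr 2
      ring
    simp only [h2]
    have hint : ∀ u : ℝ, Integrable (fun t : ℝ => ((w b t : ℝ) : ℂ) * e (t * u)) := fun u =>
      integrable_w_mul hb (continuous_e.comp (by fun_prop)) (C := 1) fun t => (norm_e _).le
    rw [integral_finsetSum _ (fun m _ => integrable_finsetSum _ fun m' _ => hint _)]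
    push_cast
    refine Finset.sum_congr rfl fun m _ => ?_
    rw [integral_finsetSum _ (fun m' _ => hint _)]
    refine Finset.sum_congr rfl fun m' _ => ?_
    exact (gauss_hat hb _).symm
  exact_mod_cast h1

theorem L2_le (N : ℕ) (β : ℕ → ℝ) (D : ℝ) (hD : 0 < D)
    (hβ : ∀ m < N, (m : ℝ) * D ≤ β m ∧ β m < ((m : ℝ) + 1) * D) {b : ℝ} (hb : 0 < b) :
    ∫ t : ℝ, w b t * ‖Bh N β t‖ ^ 2 ≤ N * (3 + 4 / (Real.sqrt b * D)) := by
  rw [L2_eq N β hb]
  calc _ ≤ ∑ _m ∈ Finset.range N, (3 + 4 / (Real.sqrt b * D)) :=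
        Finset.sum_le_sum fun m hm => gauss_sum N β D hD hβ b hb m (Finset.mem_range.mp hm)
    _ = _ := by rw [Finset.sum_const, Finset.card_range, nsmul_eq_mul]

/-- the mean square over a short interval -/
theorem L2_low (N : ℕ) (β : ℕ → ℝ) (D : ℝ) (hD : 0 < D)
    (hβ : ∀ m < N, (m : ℝ) * D ≤ β m ∧ β m < ((m : ℝ) + 1) * D) (y : ℝ) (hy : 0 < y) :
    ∫ t in {t : ℝ | |t| ≤ y}, ‖Bh N β t‖ ^ 2 ≤ 100 * N * (y + 1 / D) := by
  have hy2 : 0 < y ^ 2 := by positivity
  have hS : MeasurableSet {t : ℝ | |t| ≤ y} := measurableSet_le measurable_norm measurable_const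
  have hpt : ∀ t ∈ {t : ℝ | |t| ≤ y}, ‖Bh N β t‖ ^ 2 ≤
      (Real.exp Real.pi * y) * (w (y ^ 2) t * ‖Bh N β t‖ ^ 2) := by
    intro t ht
    have ht : |t| ≤ y := ht
    have h1 : 1 ≤ (Real.exp Real.pi * y) * w (y ^ 2) t := by
      unfold w
      rw [Real.sqrt_sq hy.le]
      have h2 : Real.exp Real.pi * y * (y⁻¹ * Real.exp (-(Real.pi * t ^ 2 / y ^ 2))) =
          Real.exp (Real.pi + -(Real.pi * t ^ 2 / y ^ 2)) := by
        rw [Real.exp_add]
        field_simp
      rw [h2]
      apply Real.one_le_exp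
      have h3 : t ^ 2 ≤ y ^ 2 := by
        rw [← sq_abs t]
        exact pow_le_pow_left₀ (abs_nonneg _) ht 2
      have h4 : Real.pi * t ^ 2 / y ^ 2 ≤ Real.pi := by
        rw [div_le_iff₀ hy2]
        exact mul_le_mul_of_nonneg_left h3 Real.pi_pos.le
      linarith
    have h5 : 0 ≤ ‖Bh N β t‖ ^ 2 := by positivity
    calc ‖Bh N β t‖ ^ 2 = 1 * ‖Bh N β t‖ ^ 2 := (one_mul _).symm
      _ ≤ ((Real.exp Real.pi * y) * w (y ^ 2) t) * ‖Bh N β t‖ ^ 2 :=
          mul_le_mul_of_nonneg_right h1 h5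
      _ = _ := by ring
  have hint := (integrable_w_Bh N β hy2).const_mul (Real.exp Real.pi * y)
  have hnn : ∀ t : ℝ, 0 ≤ (Real.exp Real.pi * y) * (w (y ^ 2) t * ‖Bh N β t‖ ^ 2) := by
    intro t
    have := w_nonneg (y ^ 2) t
    positivity
  calc _ ≤ ∫ t in {t : ℝ | |t| ≤ y}, (Real.exp Real.pi * y) * (w (y ^ 2) t * ‖Bh N β t‖ ^ 2) := by
        refine integral_mono_of_nonneg (Filter.Eventually.of_forall fun t => ?_) hint.integrableOn
          (ae_restrict_of_forall_mem hS hpt)
        show 0 ≤ _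
        positivity
    _ ≤ ∫ t, (Real.exp Real.pi * y) * (w (y ^ 2) t * ‖Bh N β t‖ ^ 2) :=
        setIntegral_le_integral hint (Filter.Eventually.of_forall hnn)
    _ = (Real.exp Real.pi * y) * ∫ t, w (y ^ 2) t * ‖Bh N β t‖ ^ 2 := integral_const_mul _ _
    _ ≤ (Real.exp Real.pi * y) * (N * (3 + 4 / (Real.sqrt (y ^ 2) * D))) := by
        have := L2_le N β D hD hβ hy2
        gcongr
    _ ≤ 100 * N * (y + 1 / D) := by
        rw [Real.sqrt_sq hy.le]
        have hexp : Real.exp Real.pi ≤ 25 := by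
          have h1 : Real.exp Real.pi ≤ Real.exp 3.15 := by
            apply Real.exp_le_exp.mpr
            linarith [Real.pi_lt_d2]
          have h2 : Real.exp 3.15 = Real.exp 1 ^ 3 * Real.exp 0.15 := by
            rw [← Real.exp_nat_mul, ← Real.exp_add]
            norm_num
          have h3 : Real.exp 1 ^ 3 ≤ 20.1 :=
            (pow_le_pow_left₀ (Real.exp_pos _).le Real.exp_one_lt_d9.le 3).trans (by norm_num)
          have h4 : Real.exp (0.15 : ℝ) ≤ 1.2 :=
            (Real.exp_bound_div_one_sub_of_interval (by norm_num) (by norm_num)).trans (by norm_num)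
          rw [h2] at h1
          have h5 : 0 ≤ Real.exp (0.15 : ℝ) := (Real.exp_pos _).le
          calc Real.exp Real.pi ≤ Real.exp 1 ^ 3 * Real.exp 0.15 := h1
            _ ≤ 20.1 * 1.2 := mul_le_mul h3 h4 h5 (by norm_num)
            _ ≤ 25 := by norm_num
        have hN : (0 : ℝ) ≤ N := by positivity
        have e1 : Real.exp Real.pi * y * (N * (3 + 4 / (y * D))) =
            Real.exp Real.pi * (N * (3 * y + 4 * (1 / D))) := by
          field_simp
        rw [e1]
        have h1 : 0 ≤ 1 / D := by positivity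
        have h2 : Real.exp Real.pi * (N * (3 * y + 4 * (1 / D))) ≤ 25 * (N * (3 * y + 4 * (1 / D))) := by
          gcongr
        refine h2.trans ?_
        nlinarith [mul_nonneg hN hy.le, mul_nonneg hN h1]

theorem integrableOn_low (N : ℕ) (β : ℕ → ℝ) (y : ℝ) :
    IntegrableOn (fun t : ℝ => ‖Bh N β t‖ ^ 2) {t : ℝ | |t| ≤ y} := by
  have h1 : {t : ℝ | |t| ≤ y} ⊆ Icc (-y) y := fun t ht => abs_le.mp ht
  exact (((continuous_Bh N β).norm.pow 2).integrableOn_Icc).mono_set h1

/-- the weighted mean square away from zero -/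
theorem L2_tail (N : ℕ) (β : ℕ → ℝ) (D : ℝ) (hD : 1 ≤ D)
    (hβ : ∀ m < N, (m : ℝ) * D ≤ β m ∧ β m < ((m : ℝ) + 1) * D) (b : ℝ) (hb : 1 ≤ b) (a T : ℝ)
    (ha : 1 ≤ a) (hT : 0 < T) (I : ℕ) (hI : 1 ≤ 2 ^ I * T) :
    IntegrableOn (fun t : ℝ => w b t * ‖Bh N β t‖ ^ 2 * |t| ^ (-a)) {t : ℝ | T < |t|} ∧
    ∫ t in {t : ℝ | T < |t|}, w b t * ‖Bh N β t‖ ^ 2 * |t| ^ (-a) ≤
      7 * N + I * (200 * N * (T ^ (1 - a) + T ^ (-a) / D)) := by
  have hb0 : 0 < b := by linarith
  have hD0 : 0 < D := by linarith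
  have hS : MeasurableSet {t : ℝ | T < |t|} := measurableSet_lt measurable_const measurable_id.abs
  have hSy : ∀ y : ℝ, MeasurableSet {t : ℝ | |t| ≤ y} :=
    fun y => measurableSet_le measurable_norm measurable_const
  set g : ℝ → ℝ := fun t => w b t * ‖Bh N β t‖ ^ 2 + ∑ i ∈ Finset.range I,
    (2 ^ i * T) ^ (-a) * ({t : ℝ | |t| ≤ 2 ^ (i + 1) * T}.indicator (fun t => ‖Bh N β t‖ ^ 2) t) with hg
  have hterm : ∀ i : ℕ, Integrable (fun t : ℝ =>
      (2 ^ i * T) ^ (-a) * ({t : ℝ | |t| ≤ 2 ^ (i + 1) * T}.indicator (fun t => ‖Bh N β t‖ ^ 2) t)) :=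
    fun i => ((integrableOn_low N β _).integrable_indicator (hSy _)).const_mul _
  have hgi : Integrable g :=
    (integrable_w_Bh N β hb0).add (integrable_finsetSum _ fun i _ => hterm i)
  have hg0 : ∀ t, 0 ≤ g t := by
    intro t
    have h1 := w_nonneg b t
    have h2 : ∀ i ∈ Finset.range I, 0 ≤ (2 ^ i * T) ^ (-a) *
        ({t : ℝ | |t| ≤ 2 ^ (i + 1) * T}.indicator (fun t => ‖Bh N β t‖ ^ 2) t) := by
      intro i _
      apply mul_nonneg (by positivity)
      exact indicator_nonneg (fun _ _ => by positivity) _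
    have h3 := Finset.sum_nonneg h2
    simp only [hg]
    positivity
  have hpt : ∀ t ∈ {t : ℝ | T < |t|}, w b t * ‖Bh N β t‖ ^ 2 * |t| ^ (-a) ≤ g t := by
    intro t ht
    have ht : T < |t| := ht
    have ht0 : 0 < |t| := hT.trans ht
    have hw := w_nonneg b t
    have hB : 0 ≤ ‖Bh N β t‖ ^ 2 := by positivity
    have h2 : ∀ i ∈ Finset.range I, 0 ≤ (2 ^ i * T) ^ (-a) *
        ({t : ℝ | |t| ≤ 2 ^ (i + 1) * T}.indicator (fun t => ‖Bh N β t‖ ^ 2) t) := by
      intro i _
      apply mul_nonneg (by positivity)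
      exact indicator_nonneg (fun _ _ => by positivity) _
    rcases le_total 1 |t| with h1 | h1
    · have h3 : |t| ^ (-a) ≤ 1 := Real.rpow_le_one_of_one_le_of_nonpos h1 (by linarith)
      have h4 := Finset.sum_nonneg h2
      have h5 : w b t * ‖Bh N β t‖ ^ 2 * |t| ^ (-a) ≤ w b t * ‖Bh N β t‖ ^ 2 * 1 := by
        gcongr
      simp only [hg]
      linarith
    · have hex : ∃ n : ℕ, |t| ≤ 2 ^ n * T := ⟨I, h1.trans hI⟩
      classical
      set n := Nat.find hex with hn
      have hn1 : |t| ≤ 2 ^ n * T := Nat.find_spec hex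
      have hn0 : n ≠ 0 := by
        intro h0
        rw [h0] at hn1
        simp only [pow_zero, one_mul] at hn1
        linarith
      obtain ⟨i, hi⟩ : ∃ i, n = i + 1 := ⟨n - 1, by omega⟩
      have hnI : n ≤ I := Nat.find_min' hex (h1.trans hI)
      have hlow : 2 ^ i * T < |t| := by
        have := Nat.find_min hex (m := i) (by omega)
        exact not_le.mp this
      have h3 : |t| ^ (-a) ≤ (2 ^ i * T) ^ (-a) :=
        Real.rpow_le_rpow_of_nonpos (by positivity) hlow.le (by linarith)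
      have h4 : (2 ^ i * T) ^ (-a) *
          ({t : ℝ | |t| ≤ 2 ^ (i + 1) * T}.indicator (fun t => ‖Bh N β t‖ ^ 2) t) ≤
          ∑ i ∈ Finset.range I, (2 ^ i * T) ^ (-a) *
          ({t : ℝ | |t| ≤ 2 ^ (i + 1) * T}.indicator (fun t => ‖Bh N β t‖ ^ 2) t) :=
        Finset.single_le_sum (f := fun i => (2 ^ i * T) ^ (-a) *
          ({t : ℝ | |t| ≤ 2 ^ (i + 1) * T}.indicator (fun t => ‖Bh N β t‖ ^ 2) t)) h2
          (Finset.mem_range.mpr (by omega))
      have h5 : t ∈ {t : ℝ | |t| ≤ 2 ^ (i + 1) * T} := by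
        rw [← hi]
        exact hn1
      rw [indicator_of_mem h5] at h4
      have h6 : w b t * ‖Bh N β t‖ ^ 2 * |t| ^ (-a) ≤ (2 ^ i * T) ^ (-a) * ‖Bh N β t‖ ^ 2 := by
        have h7 := w_le_one hb t
        have h8 : 0 ≤ |t| ^ (-a) := by positivity
        calc w b t * ‖Bh N β t‖ ^ 2 * |t| ^ (-a) ≤ 1 * ‖Bh N β t‖ ^ 2 * (2 ^ i * T) ^ (-a) := by
              gcongr
          _ = _ := by ring
      have h9 : 0 ≤ w b t * ‖Bh N β t‖ ^ 2 := by positivity
      simp only [hg]
      linarith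
  have h0 : ∀ t : ℝ, 0 ≤ w b t * ‖Bh N β t‖ ^ 2 * |t| ^ (-a) := by
    intro t
    have := w_nonneg b t
    positivity
  constructor
  · refine Integrable.mono' hgi.integrableOn ?_ ?_
    · apply Measurable.aestronglyMeasurable
      have m1 : Measurable (fun t : ℝ => w b t) := (continuous_w b).measurable
      have m2 : Measurable (fun t : ℝ => ‖Bh N β t‖ ^ 2) := ((continuous_Bh N β).norm.pow 2).measurable
      exact (m1.mul m2).mul (measurable_id.abs.pow_const _)
    · refine ae_restrict_of_forall_mem hS fun t ht => ?_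
      rw [Real.norm_of_nonneg (h0 t)]
      exact hpt t ht
  · have hN0 : (0 : ℝ) ≤ N := by positivity
    calc _ ≤ ∫ t in {t : ℝ | T < |t|}, g t :=
          integral_mono_of_nonneg (Filter.Eventually.of_forall h0) hgi.integrableOn
            (ae_restrict_of_forall_mem hS hpt)
      _ ≤ ∫ t, g t := setIntegral_le_integral hgi (Filter.Eventually.of_forall hg0)
      _ = (∫ t, w b t * ‖Bh N β t‖ ^ 2) + ∑ i ∈ Finset.range I, (2 ^ i * T) ^ (-a) *
            ∫ t in {t : ℝ | |t| ≤ 2 ^ (i + 1) * T}, ‖Bh N β t‖ ^ 2 := by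
          simp only [hg]
          rw [integral_add (integrable_w_Bh N β hb0) (integrable_finsetSum _ fun i _ => hterm i),
            integral_finsetSum _ fun i _ => hterm i]
          congr 1
          refine Finset.sum_congr rfl fun i _ => ?_
          rw [integral_const_mul, integral_indicator (hSy _)]
      _ ≤ 7 * N + ∑ _i ∈ Finset.range I, (200 * N * (T ^ (1 - a) + T ^ (-a) / D)) := by
          apply add_le_add
          · refine (L2_le N β D hD0 hβ hb0).trans ?_
            have h1 : 1 ≤ Real.sqrt b * D :=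
              one_le_mul_of_one_le_of_one_le (Real.one_le_sqrt.mpr hb) hD
            have h2 : 4 / (Real.sqrt b * D) ≤ 4 := div_le_self (by norm_num) h1
            nlinarith
          · refine Finset.sum_le_sum fun i _ => ?_
            have hTi : T ≤ 2 ^ i * T := by
              have : (1 : ℝ) ≤ 2 ^ i := one_le_pow₀ (by norm_num)
              nlinarith
            have h1 := L2_low N β D hD0 hβ (2 ^ (i + 1) * T) (by positivity)
            have h2 : (2 ^ i * T) ^ (-a) ≤ T ^ (-a) :=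
              Real.rpow_le_rpow_of_nonpos hT hTi (by linarith)
            have h3 : (2 ^ i * T) ^ (1 - a) ≤ T ^ (1 - a) :=
              Real.rpow_le_rpow_of_nonpos hT hTi (by linarith)
            have h4 : (2 ^ i * T) ^ (-a) * (2 ^ i * T) = (2 ^ i * T) ^ (1 - a) := by
              rw [Real.rpow_sub (by positivity), Real.rpow_one, Real.rpow_neg (by positivity)]
              field_simp
            have h5 : (0 : ℝ) ≤ (2 ^ i * T) ^ (-a) := by positivity
            have h6 : 0 ≤ 1 / D := by positivity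
            calc _ ≤ (2 ^ i * T) ^ (-a) * (100 * N * (2 ^ (i + 1) * T + 1 / D)) := by gcongr
              _ = 100 * N * (2 * ((2 ^ i * T) ^ (-a) * (2 ^ i * T)) + (2 ^ i * T) ^ (-a) * (1 / D)) := by
                  rw [pow_succ]; ring
              _ ≤ 100 * N * (2 * T ^ (1 - a) + T ^ (-a) * (1 / D)) := by
                  rw [h4]
                  gcongr
              _ ≤ 200 * N * (T ^ (1 - a) + T ^ (-a) / D) := by
                  have h7 : 0 ≤ T ^ (-a) * (1 / D) := by positivity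
                  have h8 : T ^ (-a) / D = T ^ (-a) * (1 / D) := by ring
                  rw [h8]
                  nlinarith [mul_nonneg hN0 h7]
      _ = _ := by rw [Finset.sum_const, Finset.card_range, nsmul_eq_mul]

end Pool.H48.Wt
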