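import Pool.Agent.H48.Ws.Final
import Pool.Agent.H48.Wt.Base2

/-!
# Genuine k-th powers and a few shifted k-th powers, for almost every shift
-/

set_option autoImplicit false

namespace Pool.H48.Wt

open MeasureTheory Set Filter Topology Pool.H48.Ws

theorem chain2 (A : Set ℝ) (k s M : ℕ) (hk : 4 ≤ k) (hs : 4 ≤ s) (K δ0 x : ℝ) (hK : 0 < K)
    (hδ00 : 0 ≤ δ0) (hxδ : k * δ0 ≤ x) (hx : 2 ≤ x) (hxk : x < k) (hxs : x < s)
    (hA : ∀ t : ℝ, 0 ≤ t → ∃ n ∈ A, n ≤ t ∧ t - n ≤ K * (1 + t) ^ δ0) (η : ℝ) (hη : 0 < η) (i : ℕ) :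
    ∀ γ' : ℝ, 0 ≤ γ' → 1 - 2 ^ i * (((s : ℝ) - x) / k) < γ' →
      ∀ᵐ a ∂Pool.H19.Wa.PP (s + i), W A k (s + i) M η γ' a ≠ ⊤ := by
  induction i with
  | zero =>
    intro γ' _ h
    exact base2 A k s M hk hs K δ0 x hK hδ00 hxδ hx hxk hxs hA η γ' hη (by simpa using h)
  | succ i ih =>
    intro γ' h0 h
    set θ : ℝ := ((s : ℝ) - x) / k with hθ
    set γ : ℝ := (max (1 - 2 ^ i * θ) 0 + (1 + γ') / 2) / 2 with hγ
    have h1 : 1 - 2 ^ i * θ < (1 + γ') / 2 := by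
      rw [pow_succ] at h
      linarith
    have h2 : max (1 - 2 ^ i * θ) 0 < (1 + γ') / 2 := max_lt h1 (by linarith)
    have h3 : 1 - 2 ^ i * θ ≤ max (1 - 2 ^ i * θ) 0 := le_max_left _ _
    have h4 : 0 ≤ max (1 - 2 ^ i * θ) 0 := le_max_right _ _
    have h5 := ih γ (by linarith) (by linarith)
    exact step A k (s + i) M (by omega) η γ γ' (by linarith) (by linarith) h5

/-- from finite measures to all large targets, on the unit cube -/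
theorem ae_cube2 (A : Set ℝ) (k s : ℕ)
    (h1 : ∀ M i : ℕ, ∀ᵐ a ∂Pool.H19.Wa.PP s, W A k s M (1 / ((i : ℝ) + 1) / 2) 0 a ≠ ⊤) :
    ∀ᵐ a ∂Pool.H19.Wa.PP s, ∀ M : ℕ, ∀ η : ℝ, 0 < η →
      ∃ T : ℝ, ∀ τ : ℝ, T ≤ τ → τ ∉ B A k s M η a := by
  have h2 := ae_all_iff.mpr (fun M => ae_all_iff.mpr (h1 M))
  filter_upwards [h2] with a ha M η hη
  obtain ⟨i, hi⟩ := exists_nat_one_div_lt hη
  obtain ⟨T, hT⟩ := no_large A k s M _ (by positivity) a (ha M i)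
  refine ⟨T, fun τ hτ hB => hT τ hτ ?_⟩
  intro m hm x hx
  have := hB m hm x hx
  linarith

/-- from the unit cube to all shifts -/
theorem exc2 (A : Set ℝ) (k s : ℕ) (hae : ∀ᵐ a ∂Pool.H19.Wa.PP s, ∀ M : ℕ, ∀ η : ℝ, 0 < η →
      ∃ T : ℝ, ∀ τ : ℝ, T ≤ τ → τ ∉ B A k s M η a) :
    ∀ᵐ a : Fin s → ℝ, ∀ η : ℝ, 0 < η → ∃ T : ℝ, ∀ τ : ℝ, T ≤ τ → ∃ n ∈ A, ∃ x : Fin s → ℕ,
      τ ≤ n + ∑ i, ((x i : ℝ) + a i) ^ k ∧ n + ∑ i, ((x i : ℝ) + a i) ^ k < τ + η := by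
  set good : (Fin s → ℝ) → Prop := fun a => ∀ M : ℕ, ∀ η : ℝ, 0 < η →
      ∃ T : ℝ, ∀ τ : ℝ, T ≤ τ → τ ∉ B A k s M η a with hgood
  set N0 : Set (Fin s → ℝ) := {a | (∀ i, a i ∈ Icc (0 : ℝ) 1) ∧ ¬ good a} with hN0
  have hN0m : volume N0 = 0 := by
    have hPP : Pool.H19.Wa.PP s = (volume : Measure (Fin s → ℝ)).restrict
        (Set.pi univ (fun _ => Icc (0 : ℝ) 1)) := by
      unfold Pool.H19.Wa.PP
      rw [volume_pi, Measure.restrict_pi_pi]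
    rw [hPP, ae_restrict_iff' (MeasurableSet.univ_pi (fun _ => measurableSet_Icc))] at hae
    have h5 := measure_mono_null (s := N0) (t := {a | ¬ (a ∈ Set.pi univ (fun _ => Icc (0 : ℝ) 1) →
      good a)}) (μ := (volume : Measure (Fin s → ℝ))) ?_ hae
    · exact h5
    · intro a ha hcon
      exact ha.2 (hcon (fun i _ => ha.1 i))
  have hsub : {a : Fin s → ℝ | ¬ ∀ η : ℝ, 0 < η → ∃ T : ℝ, ∀ τ : ℝ, T ≤ τ → ∃ n ∈ A,
      ∃ x : Fin s → ℕ,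
      τ ≤ n + ∑ i, ((x i : ℝ) + a i) ^ k ∧ n + ∑ i, ((x i : ℝ) + a i) ^ k < τ + η} ⊆
      ⋃ m : Fin s → ℤ, (fun a : Fin s → ℝ => a + (fun i => -(m i : ℝ))) ⁻¹' N0 := by
    intro a ha
    rw [mem_iUnion]
    refine ⟨fun i => ⌊a i⌋, ?_⟩
    have hfr : a + (fun i => -((⌊a i⌋ : ℤ) : ℝ)) = fun i => Int.fract (a i) := by
      funext i
      simp only [Pi.add_apply, Int.fract]
      ring
    show a + (fun i => -((⌊a i⌋ : ℤ) : ℝ)) ∈ N0
    rw [hfr]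
    refine ⟨fun i => ⟨Int.fract_nonneg _, (Int.fract_lt_one _).le⟩, fun hg => ha ?_⟩
    intro η hη
    set M : ℕ := ∑ i, (⌊a i⌋).natAbs with hM
    obtain ⟨T, hT⟩ := hg M (η / 2) (by positivity)
    refine ⟨T, fun τ hτ => ?_⟩
    have h6 := hT (τ + η / 2) (by linarith)
    have h7 : ∃ n ∈ A, ∃ x : Fin s → ℕ, (∀ i, M ≤ x i) ∧
        |n + ∑ i, ((x i : ℝ) + Int.fract (a i)) ^ k - (τ + η / 2)| < η / 2 := by
      by_contra hcon
      push Not at hcon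
      apply h6
      intro m hm x hx
      exact hcon m hm x hx
    obtain ⟨n, hn, x, hx1, hx2⟩ := h7
    have hx3 : ∀ i, ((((x i : ℤ) - ⌊a i⌋).toNat : ℕ) : ℝ) + a i = (x i : ℝ) + Int.fract (a i) := by
      intro i
      have h8 : (⌊a i⌋).natAbs ≤ M := by
        rw [hM]
        exact Finset.single_le_sum (f := fun i => (⌊a i⌋).natAbs) (fun _ _ => Nat.zero_le _)
          (Finset.mem_univ i)
      have h9 : 0 ≤ (x i : ℤ) - ⌊a i⌋ := by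
        have := hx1 i
        omega
      have h10 : ((((x i : ℤ) - ⌊a i⌋).toNat : ℕ) : ℝ) = (x i : ℝ) - ⌊a i⌋ := by
        have : ((((x i : ℤ) - ⌊a i⌋).toNat : ℤ) : ℝ) = (((x i : ℤ) - ⌊a i⌋ : ℤ) : ℝ) := by
          rw [Int.toNat_of_nonneg h9]
        push_cast at this
        exact_mod_cast this
      rw [h10, Int.fract]
      ring
    refine ⟨n, hn, fun i => ((x i : ℤ) - ⌊a i⌋).toNat, ?_⟩
    simp only [hx3]
    rw [abs_lt] at hx2
    constructor <;> linarith [hx2.1, hx2.2]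
  show volume {a : Fin s → ℝ | ¬ _} = 0
  refine measure_mono_null hsub ?_
  rw [measure_iUnion_null_iff]
  intro m
  rw [measure_preimage_add_right]
  exact hN0m

/-- choice of the number of steps -/
theorem split (k r : ℕ) (hk : 4 ≤ k) (x : ℝ) (hx : 2 ≤ x) (hr : x + Real.logb 2 k + 1 < r) :
    ∃ m j : ℕ, r = m + j ∧ 4 ≤ m ∧ x < m ∧ (k : ℝ) < 2 ^ j * ((m : ℝ) - x) := by
  have hk0 : (0 : ℝ) < k := by exact_mod_cast (by omega : 0 < k)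
  have hk4 : (4 : ℝ) ≤ k := by exact_mod_cast hk
  have hlog : (2 : ℝ) ≤ Real.logb 2 k := by
    rw [Real.le_logb_iff_rpow_le (by norm_num) hk0]
    norm_num
    exact hk
  have hx0 : 0 ≤ x := by linarith
  have hf1 : ((⌊x⌋₊ : ℕ) : ℝ) ≤ x := Nat.floor_le hx0
  have hf2 : x < (⌊x⌋₊ : ℕ) + 1 := Nat.lt_floor_add_one x
  have hf3 : 2 ≤ ⌊x⌋₊ := Nat.le_floor (by exact_mod_cast hx)
  have hmr : ⌊x⌋₊ + 2 ≤ r := by
    have : ((⌊x⌋₊ + 2 : ℕ) : ℝ) < r := by push_cast; linarith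
    exact_mod_cast this.le
  refine ⟨⌊x⌋₊ + 2, r - (⌊x⌋₊ + 2), by omega, by omega, by push_cast; linarith, ?_⟩
  set m : ℕ := ⌊x⌋₊ + 2 with hm
  set c : ℝ := (m : ℝ) - x with hc
  have hmc : (m : ℝ) = ((⌊x⌋₊ : ℕ) : ℝ) + 2 := by rw [hm]; push_cast; ring
  have hc1 : 1 < c := by rw [hc, hmc]; linarith
  have hc2 : c ≤ 2 := by rw [hc, hmc]; linarith
  have h2c : (2 : ℝ) ^ c ≤ 2 * c := by
    have h1 := rpow_one_add_le_one_add_mul_self (s := 1) (p := c - 1) (by norm_num)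
      (by linarith) (by linarith)
    have h2 : (2 : ℝ) ^ c = 2 * (2 : ℝ) ^ (c - 1) := by
      rw [Real.rpow_sub_one (by norm_num)]; ring
    norm_num at h1
    rw [h2]
    linarith
  have hj : ((r - m : ℕ) : ℝ) = (r : ℝ) - m := Nat.cast_sub hmr
  have h3 : (2 : ℝ) ^ (r - m) * (2 : ℝ) ^ c = (2 : ℝ) ^ ((r : ℝ) - x) := by
    rw [← Real.rpow_natCast 2 (r - m), hj, ← Real.rpow_add (by norm_num)]
    congr 1
    rw [hc]
    ring
  have h4 : 2 * (k : ℝ) < (2 : ℝ) ^ ((r : ℝ) - x) := by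
    calc 2 * (k : ℝ) = (2 : ℝ) ^ (Real.logb 2 k + 1) := by
          rw [Real.rpow_add (by norm_num), Real.rpow_logb (by norm_num) (by norm_num) hk0,
            Real.rpow_one]
          ring
      _ < _ := Real.rpow_lt_rpow_of_exponent_lt (by norm_num) (by linarith)
  have h5 : (0 : ℝ) < 2 ^ (r - m) := by positivity
  have h6 : (2 : ℝ) ^ (r - m) * (2 : ℝ) ^ c ≤ (2 : ℝ) ^ (r - m) * (2 * c) :=
    mul_le_mul_of_nonneg_left h2c h5.le
  nlinarith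

theorem mixed (k u r : ℕ) (hk : 4 ≤ k)
    (hr : max 2 ((k : ℝ) * (1 - 1 / (k : ℝ)) ^ u) + Real.logb 2 k + 1 < r) :
    ∀ᵐ a : Fin r → ℝ, ∀ eta : ℝ, 0 < eta → ∃ T : ℝ, ∀ tau : ℝ, T ≤ tau →
      ∃ (y : Fin u → ℕ) (x : Fin r → ℕ),
        tau ≤ ∑ i, (y i : ℝ) ^ k + ∑ i, ((x i : ℝ) + a i) ^ k ∧
        ∑ i, (y i : ℝ) ^ k + ∑ i, ((x i : ℝ) + a i) ^ k < tau + eta := by
  have hk0 : (0 : ℝ) < k := by exact_mod_cast (by omega : 0 < k)
  have hk4 : (4 : ℝ) ≤ k := by exact_mod_cast hk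
  rcases Nat.eq_zero_or_pos u with rfl | hu
  · -- no genuine powers
    have hr' : k + Nat.log 2 k + 2 ≤ r := by
      have h1 : (k : ℝ) + Real.logb 2 k + 1 < r := by
        have : (k : ℝ) * (1 - 1 / (k : ℝ)) ^ 0 ≤ max 2 ((k : ℝ) * (1 - 1 / (k : ℝ)) ^ 0) :=
          le_max_right _ _
        rw [pow_zero, mul_one] at this
        rw [pow_zero, mul_one] at hr
        linarith
      have h2 : (Nat.log 2 k : ℝ) ≤ Real.logb 2 k := by
        exact_mod_cast Real.natLog_le_logb k 2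
      have h3 : ((k + Nat.log 2 k + 1 : ℕ) : ℝ) < r := by
        push_cast
        linarith
      have h4 : k + Nat.log 2 k + 1 < r := by exact_mod_cast h3
      omega
    have h := exc k r hk hr'
    have h' : ∀ᵐ a : Fin r → ℝ, ∀ η : ℝ, 0 < η → ∃ T : ℝ, ∀ τ : ℝ, T ≤ τ → ∃ x : Fin r → ℕ,
      τ ≤ ∑ i, ((x i : ℝ) + a i) ^ k ∧ ∑ i, ((x i : ℝ) + a i) ^ k < τ + η := h
    filter_upwards [h'] with a ha eta heta
    obtain ⟨T, hT⟩ := ha eta heta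
    refine ⟨T, fun tau htau => ?_⟩
    obtain ⟨x, hx1, hx2⟩ := hT tau htau
    refine ⟨fun _ => 0, x, ?_⟩
    simp only [Finset.univ_eq_empty, Finset.sum_empty, zero_add]
    exact ⟨hx1, hx2⟩
  · set δ0 : ℝ := (1 - 1 / (k : ℝ)) ^ u with hδ0
    set x : ℝ := max 2 ((k : ℝ) * δ0) with hx
    have h1k : 1 / (k : ℝ) ≤ 1 := by
      rw [div_le_one hk0]
      linarith
    have h1k' : 0 < 1 / (k : ℝ) := by positivity
    have hδ00 : 0 ≤ δ0 := pow_nonneg (by linarith) u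
    have hδ01 : δ0 < 1 := pow_lt_one₀ (by linarith) (by linarith) (by omega)
    have hxk : x < k := by
      apply max_lt (by linarith)
      nlinarith
    obtain ⟨m, j, rfl, hm4, hxm, hj⟩ := split k r hk x (le_max_left _ _) hr
    obtain ⟨K, hK, hA⟩ := greedy k u (by omega)
    have hae : ∀ M i : ℕ, ∀ᵐ a ∂Pool.H19.Wa.PP (m + j),
        W (Pw k u) k (m + j) M (1 / ((i : ℝ) + 1) / 2) 0 a ≠ ⊤ := by
      intro M i
      refine chain2 (Pw k u) k m M hk hm4 K δ0 x hK hδ00 (le_max_right _ _) (le_max_left _ _) hxk hxm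
        hA _ (by positivity) j 0 le_rfl ?_
      have : 1 < 2 ^ j * (((m : ℝ) - x) / k) := by
        rw [← mul_div_assoc, lt_div_iff₀ hk0, one_mul]
        exact hj
      linarith
    have h := exc2 (Pw k u) k (m + j) (ae_cube2 (Pw k u) k (m + j) hae)
    filter_upwards [h] with a ha eta heta
    obtain ⟨T, hT⟩ := ha eta heta
    refine ⟨T, fun tau htau => ?_⟩
    obtain ⟨n, ⟨y, rfl⟩, z, h1, h2⟩ := hT tau htau
    exact ⟨y, z, h1, h2⟩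

end Pool.H48.Wt
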