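import Pool.Agent.H19.Wa.Rep
import Pool.Agent.H19.Wa.CorBd

/-!
# Second moment with a general weight, and the Schur test
-/

set_option autoImplicit false

namespace Pool.H48.Wt

open MeasureTheory Set Pool.H19.Wa

/-- the weighted integrand -/
noncomputable def hh (k P s : ℕ) (c : ℝ → ℂ) (al : Fin s → ℝ) (t : ℝ) : ℂ :=
  c t * ∏ i, f k P t (al i)

theorem continuous_hh (k P s : ℕ) {c : ℝ → ℂ} (hc : Continuous c) :
    Continuous (fun p : (Fin s → ℝ) × ℝ => hh k P s c p.1 p.2) := by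
  unfold hh
  refine (hc.comp continuous_snd).mul ?_
  refine continuous_finsetProd _ fun i _ => ?_
  exact (continuous_f k P).comp (continuous_snd.prodMk ((continuous_apply i).comp continuous_fst))

theorem norm_hh_le (k P s : ℕ) (c : ℝ → ℂ) (al : Fin s → ℝ) (t : ℝ) :
    ‖hh k P s c al t‖ ≤ ‖c t‖ * (P : ℝ) ^ s := by
  unfold hh
  rw [norm_mul, norm_prod]
  refine mul_le_mul_of_nonneg_left ?_ (norm_nonneg _)
  calc ∏ i, ‖f k P t (al i)‖ ≤ ∏ _i : Fin s, (P : ℝ) :=
        Finset.prod_le_prod (fun i _ => norm_nonneg _) fun i _ => norm_f_le k P t (al i)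
    _ = (P : ℝ) ^ s := by simp

theorem second_moment2 (k P s : ℕ) (c : ℝ → ℂ) (hc : Continuous c) (hci : Integrable c)
    (S : Set ℝ) :
    Integrable (fun al : Fin s → ℝ => ‖∫ t in S, hh k P s c al t‖ ^ 2) (PP s) ∧
    ∫ al, ‖∫ t in S, hh k P s c al t‖ ^ 2 ∂PP s ≤
      ∫ q, ‖c q.1‖ * ‖c q.2‖ * ‖Cor k P q.1 q.2‖ ^ s
        ∂((volume.restrict S).prod (volume.restrict S)) := by
  set μ : Measure ℝ := volume.restrict S with hμ
  have hcS : Integrable (fun t => ‖c t‖ * (P : ℝ) ^ s) μ := (hci.norm.mul_const _).restrict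
  have hgi : Integrable (fun p : (Fin s → ℝ) × ℝ => hh k P s c p.1 p.2) ((PP s).prod μ) := by
    refine (hcS.comp_snd (PP s)).mono' (continuous_hh k P s hc).aestronglyMeasurable
      (Filter.Eventually.of_forall fun p => ?_)
    exact norm_hh_le k P s c p.1 p.2
  set Z : (Fin s → ℝ) → ℂ := fun al => ∫ t, hh k P s c al t ∂μ with hZ
  have hZi : Integrable Z (PP s) := hgi.integral_prod_left
  set Q : ℝ := ∫ t, ‖c t‖ * (P : ℝ) ^ s ∂μ with hQ
  have hZb : ∀ al, ‖Z al‖ ≤ Q := by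
    intro al
    exact norm_integral_le_of_norm_le hcS (Filter.Eventually.of_forall fun t =>
            norm_hh_le k P s c al t)
  have hint : Integrable (fun al => ‖Z al‖ ^ 2) (PP s) := by
    refine (integrable_const (Q ^ 2)).mono' (hZi.aestronglyMeasurable.norm.pow 2)
      (Filter.Eventually.of_forall fun al => ?_)
    rw [Real.norm_of_nonneg (by positivity)]
    exact pow_le_pow_left₀ (norm_nonneg _) (hZb al) 2
  refine ⟨hint, ?_⟩
  -- the product integrand
  set Ψ : (Fin s → ℝ) → ℝ × ℝ → ℂ := fun al q =>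
    hh k P s c al q.1 * (starRingEnd ℂ) (hh k P s c al q.2) with hΨ
  have hZZ : ∀ al, ((‖Z al‖ ^ 2 : ℝ) : ℂ) = ∫ q, Ψ al q ∂(μ.prod μ) := by
    intro al
    have h1 : ((‖Z al‖ ^ 2 : ℝ) : ℂ) = Z al * (starRingEnd ℂ) (Z al) := by
      rw [Complex.mul_conj, Complex.normSq_eq_norm_sq]
    rw [h1]
    have h2 : (starRingEnd ℂ) (Z al) = ∫ t, (starRingEnd ℂ) (hh k P s c al t) ∂μ :=
      integral_conj.symm
    rw [h2]
    exact (integral_prod_mul (fun t => hh k P s c al t)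
      (fun t => (starRingEnd ℂ) (hh k P s c al t))).symm
  have hΨc : Continuous (fun p : (Fin s → ℝ) × (ℝ × ℝ) => Ψ p.1 p.2) := by
    have h1 : Continuous (fun p : (Fin s → ℝ) × (ℝ × ℝ) => hh k P s c p.1 p.2.1) :=
      (continuous_hh k P s hc).comp
        (g := fun p : (Fin s → ℝ) × ℝ => hh k P s c p.1 p.2)
        (f := fun p : (Fin s → ℝ) × (ℝ × ℝ) => (p.1, p.2.1)) (by fun_prop)
    have h2 : Continuous (fun p : (Fin s → ℝ) × (ℝ × ℝ) => hh k P s c p.1 p.2.2) :=
      (continuous_hh k P s hc).comp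
        (g := fun p : (Fin s → ℝ) × ℝ => hh k P s c p.1 p.2)
        (f := fun p : (Fin s → ℝ) × (ℝ × ℝ) => (p.1, p.2.2)) (by fun_prop)
    exact h1.mul (Complex.continuous_conj.comp h2)
  have hΨi : Integrable (Function.uncurry Ψ) ((PP s).prod (μ.prod μ)) := by
    have h := (hcS.mul_prod hcS).comp_snd (PP s)
    refine h.mono' hΨc.aestronglyMeasurable (Filter.Eventually.of_forall fun p => ?_)
    simp only [Function.uncurry, hΨ, norm_mul, RCLike.norm_conj]
    exact mul_le_mul (norm_hh_le _ _ _ _ _ _) (norm_hh_le _ _ _ _ _ _) (norm_nonneg _)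
      (mul_nonneg (norm_nonneg _) (by positivity))
  set Φ : ℝ × ℝ → ℂ := fun q => ∫ al, Ψ al q ∂PP s with hΦ
  have hΦe : ∀ q : ℝ × ℝ, ‖Φ q‖ = ‖c q.1‖ * ‖c q.2‖ * ‖Cor k P q.1 q.2‖ ^ s := by
    intro q
    have h1 : Φ q = (c q.1 * (starRingEnd ℂ) (c q.2)) * (Cor k P q.1 q.2) ^ s := by
      have h2 : ∀ al, Ψ al q = (c q.1 * (starRingEnd ℂ) (c q.2)) *
          ∏ i, (f k P q.1 (al i) * (starRingEnd ℂ) (f k P q.2 (al i))) := by
        intro al
        simp only [hΨ, hh, map_mul, map_prod, Finset.prod_mul_distrib]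
        ring
      simp only [hΦ, h2]
      rw [integral_const_mul, integral_prod_PP
        (fun a => f k P q.1 a * (starRingEnd ℂ) (f k P q.2 a))]
      rfl
    rw [h1]
    simp only [norm_mul, RCLike.norm_conj, norm_pow]
  have hmain : ((∫ al, ‖Z al‖ ^ 2 ∂PP s : ℝ) : ℂ) = ∫ q, Φ q ∂(μ.prod μ) := by
    rw [← integral_complex_ofReal]
    have h1 : (∫ al, ((‖Z al‖ ^ 2 : ℝ) : ℂ) ∂PP s) = ∫ al, ∫ q, Ψ al q ∂(μ.prod μ) ∂PP s :=
      integral_congr_ae (Filter.Eventually.of_forall fun al => hZZ al)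
    refine h1.trans ?_
    rw [integral_integral_swap hΨi]
  have hn : ∫ al, ‖Z al‖ ^ 2 ∂PP s ≤ ‖((∫ al, ‖Z al‖ ^ 2 ∂PP s : ℝ) : ℂ)‖ := by
    rw [Complex.norm_real]
    exact le_abs_self _
  refine hn.trans ?_
  rw [hmain]
  refine (norm_integral_le_integral_norm _).trans (le_of_eq ?_)
  simp only [hΦe]

theorem continuous_Cor (k P : ℕ) : Continuous (fun q : ℝ × ℝ => Cor k P q.1 q.2) := by
  unfold Cor
  have h : Continuous (Function.uncurry fun (q : ℝ × ℝ) (a : ℝ) =>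
      f k P q.1 a * (starRingEnd ℂ) (f k P q.2 a)) := by
    have h1 : Continuous (fun p : (ℝ × ℝ) × ℝ => f k P p.1.1 p.2) :=
      (continuous_f k P).comp (g := fun p : ℝ × ℝ => f k P p.1 p.2)
        (f := fun p : (ℝ × ℝ) × ℝ => (p.1.1, p.2)) (by fun_prop)
    have h2 : Continuous (fun p : (ℝ × ℝ) × ℝ => f k P p.1.2 p.2) :=
      (continuous_f k P).comp (g := fun p : ℝ × ℝ => f k P p.1 p.2)
        (f := fun p : (ℝ × ℝ) × ℝ => (p.1.2, p.2)) (by fun_prop)
    exact h1.mul (Complex.continuous_conj.comp h2)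
  exact intervalIntegral.continuous_parametric_intervalIntegral_of_continuous' h _ _

theorem Cor_symm (k P : ℕ) (t t' : ℝ) : ‖Cor k P t t'‖ = ‖Cor k P t' t‖ := by
  have h : Cor k P t' t = (starRingEnd ℂ) (Cor k P t t') := by
    unfold Cor
    rw [intervalIntegral.integral_of_le zero_le_one, intervalIntegral.integral_of_le zero_le_one,
      ← integral_conj]
    congr 1
    funext a
    simp [mul_comm]
  rw [h, RCLike.norm_conj]

theorem Cor_norm_le (k P : ℕ) (t t' : ℝ) : ‖Cor k P t t'‖ ≤ (P : ℝ) ^ 2 := by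
  unfold Cor
  have := intervalIntegral.norm_integral_le_of_norm_le_const (a := (0 : ℝ)) (b := 1)
    (C := (P : ℝ) ^ 2) (f := fun a : ℝ => f k P t a * (starRingEnd ℂ) (f k P t' a)) (fun a _ => by
      rw [norm_mul, RCLike.norm_conj, sq]
      exact mul_le_mul (norm_f_le _ _ _ _) (norm_f_le _ _ _ _) (norm_nonneg _) (by positivity))
  simpa using this

/-- the Schur test -/
theorem schur (k P s : ℕ) {b : ℝ} (hb : 0 < b) (B : ℝ → ℝ) (hB : Continuous B) (M : ℝ)
    (hBM : ∀ t, |B t| ≤ M) (S : Set ℝ) (hS : MeasurableSet S) (K : ℝ → ℝ)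
    (hK : ∀ t ∈ S, ∫ t' in S, w b t' * ‖Cor k P t t'‖ ^ s ≤ K t)
    (hKi : IntegrableOn (fun t => w b t * B t ^ 2 * K t) S) :
    ∫ q, (w b q.1 * |B q.1|) * (w b q.2 * |B q.2|) * ‖Cor k P q.1 q.2‖ ^ s
        ∂((volume.restrict S).prod (volume.restrict S)) ≤
      ∫ t in S, w b t * B t ^ 2 * K t := by
  set μ : Measure ℝ := volume.restrict S with hμ
  have hM0 : 0 ≤ M := (abs_nonneg _).trans (hBM 0)
  have hw : Integrable (fun t => w b t) μ := (integrable_w hb).restrict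
  have hww : Integrable (fun q : ℝ × ℝ => w b q.1 * w b q.2) (μ.prod μ) := hw.mul_prod hw
  have hC := continuous_Cor k P
  have cw : Continuous (fun q : ℝ × ℝ => w b q.1 * w b q.2) :=
    ((continuous_w b).comp continuous_fst).mul ((continuous_w b).comp continuous_snd)
  have hint : ∀ g : ℝ × ℝ → ℝ, Continuous g → (∀ q, |g q| ≤ M ^ 2) →
      Integrable (fun q : ℝ × ℝ => w b q.1 * w b q.2 * g q * ‖Cor k P q.1 q.2‖ ^ s) (μ.prod μ) := by
    intro g hg hgM
    refine (hww.mul_const (M ^ 2 * ((P : ℝ) ^ 2) ^ s)).mono' ?_ (Filter.Eventually.of_forall fun q => ?_)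
    · exact ((cw.mul hg).mul (hC.norm.pow s)).aestronglyMeasurable
    · have h1 : 0 ≤ w b q.1 * w b q.2 := mul_nonneg (w_nonneg _ _) (w_nonneg _ _)
      rw [norm_mul, norm_mul, Real.norm_of_nonneg h1, Real.norm_eq_abs, norm_pow, norm_norm, mul_assoc]
      refine mul_le_mul_of_nonneg_left ?_ h1
      exact mul_le_mul (hgM q) (pow_le_pow_left₀ (norm_nonneg _) (Cor_norm_le k P _ _) s)
        (by positivity) (by positivity)
  have hsq : ∀ t, B t ^ 2 ≤ M ^ 2 := by
    intro t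
    rw [← sq_abs]
    exact pow_le_pow_left₀ (abs_nonneg _) (hBM t) 2
  have i1 := hint (fun q => B q.1 ^ 2) ((hB.comp continuous_fst).pow 2) (fun q => by
    rw [abs_of_nonneg (by positivity)]; exact hsq _)
  have i2 := hint (fun q => B q.2 ^ 2) ((hB.comp continuous_snd).pow 2) (fun q => by
    rw [abs_of_nonneg (by positivity)]; exact hsq _)
  have i0 := hint (fun q => |B q.1| * |B q.2|) (((hB.comp continuous_fst).abs).mul
    ((hB.comp continuous_snd).abs)) (fun q => by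
    rw [abs_of_nonneg (by positivity), sq]
    exact mul_le_mul (hBM _) (hBM _) (abs_nonneg _) hM0)
  have hsw : ∫ q, w b q.1 * w b q.2 * B q.2 ^ 2 * ‖Cor k P q.1 q.2‖ ^ s ∂(μ.prod μ) =
      ∫ q, w b q.1 * w b q.2 * B q.1 ^ 2 * ‖Cor k P q.1 q.2‖ ^ s ∂(μ.prod μ) := by
    rw [← integral_prod_swap]
    congr 1
    funext q
    simp only [Prod.fst_swap, Prod.snd_swap]
    rw [Cor_symm k P q.2 q.1]
    ring
  calc _ = ∫ q, w b q.1 * w b q.2 * (|B q.1| * |B q.2|) * ‖Cor k P q.1 q.2‖ ^ s ∂(μ.prod μ) := by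
        congr 1
        funext q
        ring
    _ ≤ ∫ q, (1 / 2 * (w b q.1 * w b q.2 * B q.1 ^ 2 * ‖Cor k P q.1 q.2‖ ^ s) +
          1 / 2 * (w b q.1 * w b q.2 * B q.2 ^ 2 * ‖Cor k P q.1 q.2‖ ^ s)) ∂(μ.prod μ) := by
        refine integral_mono i0 ((i1.const_mul _).add (i2.const_mul _)) fun q => ?_
        have h1 : 0 ≤ w b q.1 * w b q.2 * ‖Cor k P q.1 q.2‖ ^ s :=
          mul_nonneg (mul_nonneg (w_nonneg _ _) (w_nonneg _ _)) (by positivity)
        have h2 : |B q.1| * |B q.2| ≤ 1 / 2 * B q.1 ^ 2 + 1 / 2 * B q.2 ^ 2 := by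
          rw [← sq_abs (B q.1), ← sq_abs (B q.2)]
          nlinarith [sq_nonneg (|B q.1| - |B q.2|)]
        calc w b q.1 * w b q.2 * (|B q.1| * |B q.2|) * ‖Cor k P q.1 q.2‖ ^ s
            = (w b q.1 * w b q.2 * ‖Cor k P q.1 q.2‖ ^ s) * (|B q.1| * |B q.2|) := by ring
          _ ≤ (w b q.1 * w b q.2 * ‖Cor k P q.1 q.2‖ ^ s) * (1 / 2 * B q.1 ^ 2 + 1 / 2 * B q.2 ^ 2) :=
              mul_le_mul_of_nonneg_left h2 h1
          _ = _ := by ring
    _ = ∫ q, w b q.1 * w b q.2 * B q.1 ^ 2 * ‖Cor k P q.1 q.2‖ ^ s ∂(μ.prod μ) := by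
        rw [integral_add (i1.const_mul _) (i2.const_mul _), integral_const_mul, integral_const_mul, hsw]
        ring
    _ = ∫ t, ∫ t', w b t * w b t' * B t ^ 2 * ‖Cor k P t t'‖ ^ s ∂μ ∂μ := integral_prod _ i1
    _ ≤ ∫ t in S, w b t * B t ^ 2 * K t := by
        refine integral_mono_of_nonneg (Filter.Eventually.of_forall fun t => ?_) hKi
          (ae_restrict_of_forall_mem hS fun t ht => ?_)
        · refine integral_nonneg fun t' => ?_
          have := w_nonneg b t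
          have := w_nonneg b t'
          show 0 ≤ _
          positivity
        · have h1 : ∫ t', w b t * w b t' * B t ^ 2 * ‖Cor k P t t'‖ ^ s ∂μ =
              w b t * B t ^ 2 * ∫ t', w b t' * ‖Cor k P t t'‖ ^ s ∂μ := by
            rw [← integral_const_mul]
            congr 1
            funext t'
            ring
          show ∫ t', w b t * w b t' * B t ^ 2 * ‖Cor k P t t'‖ ^ s ∂μ ≤ _
          rw [h1]
          have := w_nonneg b t
          exact mul_le_mul_of_nonneg_left (hK t ht) (by positivity)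

end Pool.H48.Wt
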