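import Pool.Agent.H19.Wa.Prob
import Pool.Agent.H48.Wt.Sec2
import Pool.Agent.H48.Wt.Bh

/-!
# The deterministic inequality behind Chebyshev, with weights
-/

set_option autoImplicit false

namespace Pool.H48.Wt

open MeasureTheory Set Filter Topology Pool.H19.Wa

/-- the coefficient function -/
noncomputable def cc (b tau : ℝ) (N : ℕ) (β : ℕ → ℝ) (t : ℝ) : ℂ :=
  ((w b t : ℝ) : ℂ) * e (-(t * tau)) * Bh N β t

theorem continuous_cc (b tau : ℝ) (N : ℕ) (β : ℕ → ℝ) : Continuous (cc b tau N β) := by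
  unfold cc
  refine Continuous.mul (Continuous.mul ?_ ?_) (continuous_Bh N β)
  · exact Complex.continuous_ofReal.comp (continuous_w b)
  · exact continuous_e.comp (by fun_prop)

theorem norm_cc (b tau : ℝ) (N : ℕ) (β : ℕ → ℝ) (t : ℝ) :
    ‖cc b tau N β t‖ = w b t * |‖Bh N β t‖| := by
  unfold cc
  rw [norm_mul, norm_mul, norm_e, mul_one, Complex.norm_real, Real.norm_of_nonneg (w_nonneg b t),
    abs_of_nonneg (norm_nonneg _)]

theorem integrable_cc {b : ℝ} (hb : 0 < b) (tau : ℝ) (N : ℕ) (β : ℕ → ℝ) :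
    Integrable (cc b tau N β) := by
  refine ((integrable_w hb).mul_const (N : ℝ)).mono' (continuous_cc b tau N β).aestronglyMeasurable
    (Filter.Eventually.of_forall fun t => ?_)
  rw [norm_cc, abs_of_nonneg (norm_nonneg _)]
  exact mul_le_mul_of_nonneg_left (norm_Bh_le N β t) (w_nonneg b t)

theorem sum_gg (k P s : ℕ) (b tau : ℝ) (al : Fin s → ℝ) (N : ℕ) (β : ℕ → ℝ) (t : ℝ) :
    ∑ m ∈ Finset.range N, gg_pr k P s b (tau - β m) al t = hh k P s (cc b tau N β) al t := by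
  unfold gg_pr hh cc Bh
  rw [Finset.mul_sum, Finset.sum_mul]
  refine Finset.sum_congr rfl fun m _ => ?_
  have h1 : e (-(t * (tau - β m))) = e (-(t * tau)) * e (t * β m) := by
    rw [← e_add]; congr 1; ring
  rw [h1]
  ring

/-- the difference between the mean and the number of representations -/
theorem ident (k P s : ℕ) {b : ℝ} (hb0 : 0 < b) (tau : ℝ) (al : Fin s → ℝ) (T : ℝ)
    (hT1 : t1 k P ≤ T) : ∃ A V : ℂ,
      ‖A‖ ≤ (∫ t in {t : ℝ | |t| ≤ t1 k P}, w b t * ‖∏ i, f k P t (al i) - (v k P t) ^ s‖) ∧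
      ‖V‖ ≤ (∫ t in {t : ℝ | t1 k P < |t|}, w b t * ‖v k P t‖ ^ s) ∧
      (((∫ al, R k P s b tau al ∂PP s) - R k P s b tau al : ℝ) : ℂ) = A + V -
        (∫ t in {t : ℝ | t1 k P < |t| ∧ |t| ≤ T}, gg_pr k P s b tau al t) -
        ∫ t in {t : ℝ | T < |t|}, gg_pr k P s b tau al t := by
  have hmeas1 : MeasurableSet {t : ℝ | |t| ≤ t1 k P} :=
    measurableSet_le measurable_norm measurable_const
  have hcompl : {t : ℝ | |t| ≤ t1 k P}ᶜ = {t : ℝ | t1 k P < |t|} := by
    ext t; simp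
  have hmeas2 : MeasurableSet {t : ℝ | T < |t|} := measurableSet_lt measurable_const measurable_norm
  have hunion : {t : ℝ | t1 k P < |t|} = {t : ℝ | t1 k P < |t| ∧ |t| ≤ T} ∪ {t : ℝ | T < |t|} := by
    ext t
    simp only [mem_ofPred_eq, mem_union]
    constructor
    · intro h
      by_cases h2 : |t| ≤ T
      · exact Or.inl ⟨h, h2⟩
      · exact Or.inr (not_le.mp h2)
    · rintro (h | h)
      · exact h.1
      · exact lt_of_le_of_lt hT1 h
  have hdisj : Disjoint {t : ℝ | t1 k P < |t| ∧ |t| ≤ T} {t : ℝ | T < |t|} := by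
    rw [Set.disjoint_left]
    intro t h1 h2
    exact absurd h2 (not_lt.mpr h1.2)
  have hrep := rep k P s hb0 tau al
  have hmean := mean k P s hb0 tau
  have hgi := integrable_gg_pr k P s hb0 tau al
  have hvi := integrable_vv_pr k P s hb0 tau
  have e1 : ((R k P s b tau al : ℝ) : ℂ) = (∫ t in {t : ℝ | |t| ≤ t1 k P}, gg_pr k P s b tau al t) +
      ((∫ t in {t : ℝ | t1 k P < |t| ∧ |t| ≤ T}, gg_pr k P s b tau al t) +
        ∫ t in {t : ℝ | T < |t|}, gg_pr k P s b tau al t) := by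
    rw [hrep, ← setIntegral_union hdisj hmeas2 hgi.integrableOn hgi.integrableOn, ← hunion, ← hcompl,
      integral_add_compl hmeas1 hgi]
    rfl
  have e2 : ((∫ al, R k P s b tau al ∂PP s : ℝ) : ℂ) =
      (∫ t in {t : ℝ | |t| ≤ t1 k P}, ((w b t : ℝ) : ℂ) * e (-(t * tau)) * (v k P t) ^ s) +
      ∫ t in {t : ℝ | t1 k P < |t|}, ((w b t : ℝ) : ℂ) * e (-(t * tau)) * (v k P t) ^ s := by
    rw [hmean, ← hcompl, integral_add_compl hmeas1 hvi]
  have e3 : (∫ t in {t : ℝ | |t| ≤ t1 k P}, gg_pr k P s b tau al t) -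
      (∫ t in {t : ℝ | |t| ≤ t1 k P}, ((w b t : ℝ) : ℂ) * e (-(t * tau)) * (v k P t) ^ s) =
      ∫ t in {t : ℝ | |t| ≤ t1 k P}, ((w b t : ℝ) : ℂ) * e (-(t * tau)) *
        (∏ i, f k P t (al i) - (v k P t) ^ s) := by
    rw [← integral_sub hgi.integrableOn hvi.integrableOn]
    congr 1
    ext t
    unfold gg_pr
    ring
  have n1 : ‖∫ t in {t : ℝ | |t| ≤ t1 k P}, ((w b t : ℝ) : ℂ) * e (-(t * tau)) *
        (∏ i, f k P t (al i) - (v k P t) ^ s)‖ ≤
      ∫ t in {t : ℝ | |t| ≤ t1 k P}, w b t * ‖∏ i, f k P t (al i) - (v k P t) ^ s‖ := by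
    refine (norm_integral_le_integral_norm _).trans (le_of_eq ?_)
    congr 1
    ext t
    rw [norm_mul, norm_mul, norm_e, mul_one, Complex.norm_real, Real.norm_of_nonneg (w_nonneg b t)]
  have n2 : ‖∫ t in {t : ℝ | t1 k P < |t|}, ((w b t : ℝ) : ℂ) * e (-(t * tau)) * (v k P t) ^ s‖ ≤
      ∫ t in {t : ℝ | t1 k P < |t|}, w b t * ‖v k P t‖ ^ s := by
    refine (norm_integral_le_integral_norm _).trans (le_of_eq ?_)
    congr 1
    ext t
    rw [norm_mul, norm_mul, norm_e, mul_one, Complex.norm_real, Real.norm_of_nonneg (w_nonneg b t),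
      norm_pow]
  refine ⟨-(∫ t in {t : ℝ | |t| ≤ t1 k P}, ((w b t : ℝ) : ℂ) * e (-(t * tau)) *
        (∏ i, f k P t (al i) - (v k P t) ^ s)),
    (∫ t in {t : ℝ | t1 k P < |t|}, ((w b t : ℝ) : ℂ) * e (-(t * tau)) * (v k P t) ^ s), ?_, n2, ?_⟩
  · rw [norm_neg]
    exact n1
  · push_cast
    rw [← e3, e1, e2]
    ring

theorem key2 (k P s : ℕ) {b : ℝ} (hb : 1 ≤ b) (tau : ℝ) (al : Fin s → ℝ) (η : ℝ) (hη : 0 < η)
    (N : ℕ) (β : ℕ → ℝ) (T : ℝ) (hT1 : t1 k P ≤ T)
    (hbad : ∀ m < N, ∀ x : Fin s → ℕ, (∀ i, P ≤ x i ∧ x i < 2 * P) →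
        η ≤ |β m + ∑ i, ((x i : ℝ) + al i) ^ k - tau|) :
    ∑ m ∈ Finset.range N, (∫ al, R k P s b (tau - β m) al ∂PP s) ≤
      N * ((P : ℝ) ^ s * Real.exp (-(Real.pi * b * η ^ 2))) +
      N * (∫ t in {t : ℝ | |t| ≤ t1 k P}, w b t * ‖∏ i, f k P t (al i) - (v k P t) ^ s‖) +
      N * (∫ t in {t : ℝ | t1 k P < |t|}, w b t * ‖v k P t‖ ^ s) +
      ‖∫ t in {t : ℝ | t1 k P < |t| ∧ |t| ≤ T}, hh k P s (cc b tau N β) al t‖ +
      ‖∫ t in {t : ℝ | T < |t|}, hh k P s (cc b tau N β) al t‖ := by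
  have hb0 : 0 < b := by linarith
  -- R small
  have hR : ∀ m ∈ Finset.range N, R k P s b (tau - β m) al ≤
      (P : ℝ) ^ s * Real.exp (-(Real.pi * b * η ^ 2)) := by
    intro m hm
    unfold R
    calc _ ≤ ∑ _x ∈ Fintype.piFinset (fun _ : Fin s => Finset.Ico P (2 * P)),
          Real.exp (-(Real.pi * b * η ^ 2)) := by
          refine Finset.sum_le_sum fun x hx => ?_
          rw [Fintype.mem_piFinset] at hx
          have h1 := hbad m (Finset.mem_range.mp hm) x (fun i => by simpa using hx i)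
          unfold G
          apply Real.exp_le_exp.mpr
          have h0 : ∑ i, ((x i : ℝ) + al i) ^ k - (tau - β m) =
              β m + ∑ i, ((x i : ℝ) + al i) ^ k - tau := by ring
          rw [h0]
          have h2 : η ^ 2 ≤ (β m + ∑ i, ((x i : ℝ) + al i) ^ k - tau) ^ 2 := by
            rw [← sq_abs (β m + ∑ i, ((x i : ℝ) + al i) ^ k - tau)]
            exact pow_le_pow_left₀ hη.le h1 2
          have h3 : 0 < Real.pi * b := by positivity
          nlinarith
      _ = _ := by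
          rw [Finset.sum_const, Fintype.card_piFinset]
          simp only [Nat.card_Ico, Finset.prod_const, Finset.card_univ, Fintype.card_fin,
            nsmul_eq_mul]
          have : 2 * P - P = P := by omega
          rw [this]
          push_cast
          ring
  have hid := fun m : ℕ => ident k P s hb0 (tau - β m) al T hT1
  choose A V hA hV hAV using hid
  have hgi : ∀ m : ℕ, Integrable (gg_pr k P s b (tau - β m) al) :=
    fun m => integrable_gg_pr k P s hb0 (tau - β m) al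
  have hsumS : ∀ S : Set ℝ, ∑ m ∈ Finset.range N, ∫ t in S, gg_pr k P s b (tau - β m) al t =
      ∫ t in S, hh k P s (cc b tau N β) al t := by
    intro S
    rw [← integral_finsetSum _ (fun m _ => (hgi m).integrableOn)]
    congr 1
    funext t
    exact sum_gg k P s b tau al N β t
  have htot : ((∑ m ∈ Finset.range N, ((∫ al, R k P s b (tau - β m) al ∂PP s) -
      R k P s b (tau - β m) al) : ℝ) : ℂ) = ∑ m ∈ Finset.range N, A m + ∑ m ∈ Finset.range N, V m -
        (∫ t in {t : ℝ | t1 k P < |t| ∧ |t| ≤ T}, hh k P s (cc b tau N β) al t) -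
        ∫ t in {t : ℝ | T < |t|}, hh k P s (cc b tau N β) al t := by
    rw [← hsumS, ← hsumS, ← Finset.sum_add_distrib, ← Finset.sum_sub_distrib,
      ← Finset.sum_sub_distrib, Complex.ofReal_sum]
    exact Finset.sum_congr rfl fun m _ => hAV m
  have hnorm : ∑ m ∈ Finset.range N, ((∫ al, R k P s b (tau - β m) al ∂PP s) -
      R k P s b (tau - β m) al) ≤
      N * (∫ t in {t : ℝ | |t| ≤ t1 k P}, w b t * ‖∏ i, f k P t (al i) - (v k P t) ^ s‖) +
      N * (∫ t in {t : ℝ | t1 k P < |t|}, w b t * ‖v k P t‖ ^ s) +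
      ‖∫ t in {t : ℝ | t1 k P < |t| ∧ |t| ≤ T}, hh k P s (cc b tau N β) al t‖ +
      ‖∫ t in {t : ℝ | T < |t|}, hh k P s (cc b tau N β) al t‖ := by
    have h0 : ∑ m ∈ Finset.range N, ((∫ al, R k P s b (tau - β m) al ∂PP s) -
        R k P s b (tau - β m) al) ≤ ‖((∑ m ∈ Finset.range N,
          ((∫ al, R k P s b (tau - β m) al ∂PP s) - R k P s b (tau - β m) al) : ℝ) : ℂ)‖ := by
      rw [Complex.norm_real]; exact le_abs_self _
    refine h0.trans ?_
    rw [htot]
    refine (norm_sub_le _ _).trans ?_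
    gcongr
    refine (norm_sub_le _ _).trans ?_
    gcongr
    refine (norm_add_le _ _).trans ?_
    apply add_le_add
    · refine (norm_sum_le _ _).trans ((Finset.sum_le_sum fun m _ => hA m).trans ?_)
      rw [Finset.sum_const, Finset.card_range, nsmul_eq_mul]
    · refine (norm_sum_le _ _).trans ((Finset.sum_le_sum fun m _ => hV m).trans ?_)
      rw [Finset.sum_const, Finset.card_range, nsmul_eq_mul]
  have hRs : ∑ m ∈ Finset.range N, R k P s b (tau - β m) al ≤
      N * ((P : ℝ) ^ s * Real.exp (-(Real.pi * b * η ^ 2))) := by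
    refine (Finset.sum_le_sum hR).trans ?_
    rw [Finset.sum_const, Finset.card_range, nsmul_eq_mul]
  rw [Finset.sum_sub_distrib] at hnorm
  linarith

end Pool.H48.Wt
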