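import Pool.Agent.H19.Wa.MinorB
import Pool.Agent.H48.Wt.Sec2
import Pool.Agent.H48.Wt.Bh

/-!
# Minor arc estimates with weights
-/

set_option autoImplicit false

namespace Pool.H48.Wt

open MeasureTheory Set Pool.H19.Wa

/-- pointwise bound on the minor arc -/
theorem cor_minor2 (k : ℕ) (hk : 4 ≤ k) (P : ℕ) (hP : 1 ≤ P) (t t' : ℝ)
    (ht : t1 k P < |t|) (ht' : t1 k P < |t'|) :
    ‖Cor k P t t'‖ ≤ (1 + k * 2 ^ (k + 1)) * (P * (1 + Real.log P)) := by
  have hP0 : (0 : ℝ) < P := by exact_mod_cast hP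
  have hP1 : (1 : ℝ) ≤ P := by exact_mod_cast hP
  have hk0 : (0 : ℝ) < k := by
    have : 0 < k := by omega
    exact_mod_cast this
  have hlog : 0 ≤ Real.log P := Real.log_nonneg hP1
  have ht10 : 0 < t1 k P := by unfold t1; positivity
  have key : ∀ u : ℝ, t1 k P < |u| →
      ‖Cor k P u u‖ ≤ (1 + k * 2 ^ (k + 1)) * (P * (1 + Real.log P)) := by
    intro u hu
    have hu0 : u ≠ 0 := by
      rintro rfl
      rw [abs_zero] at hu
      linarith
    refine (cor_self k P hk hP u hu0).trans ?_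
    have h1 : 2 * (1 + Real.log P) / (|u| * (P : ℝ) ^ (k - 2)) ≤
        2 * (1 + Real.log P) / (t1 k P * (P : ℝ) ^ (k - 2)) := by
      apply div_le_div_of_nonneg_left (by positivity) (by positivity)
      gcongr
    have h2 : t1 k P * (P : ℝ) ^ (k - 2) = 1 / (k * 2 ^ k * P) := by
      unfold t1
      obtain ⟨m, rfl⟩ : ∃ m, k = m + 2 := ⟨k - 2, by omega⟩
      have e1 : m + 2 - 1 = m + 1 := by omega
      have e2 : m + 2 - 2 = m := by omega
      rw [e1, e2, mul_pow]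
      field_simp
      ring
    have h3 : 2 * (1 + Real.log P) / (t1 k P * (P : ℝ) ^ (k - 2)) =
        k * 2 ^ (k + 1) * (P * (1 + Real.log P)) := by
      rw [h2]
      field_simp
      ring
    rw [h3] at h1
    nlinarith [mul_nonneg hP0.le hlog]
  have h1 := cor_trivial k P t t'
  have h2 := key t ht
  have h3 := key t' ht'
  linarith

theorem minA2 (k s : ℕ) (hk : 4 ≤ k) (x κ : ℝ) (hκ1 : (k : ℝ) / 2 ≤ κ) (hκ2 : (k : ℝ) - x ≤ κ) :
    ∃ C : ℝ, 0 < C ∧ ∀ P : ℕ, 1 ≤ P → ∀ b : ℝ, 1 ≤ b → ∀ (N : ℕ) (β : ℕ → ℝ) (D : ℝ),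
      0 < D → (P : ℝ) ^ x ≤ D →
      (∀ m < N, (m : ℝ) * D ≤ β m ∧ β m < ((m : ℝ) + 1) * D) →
      ∫ q, (w b q.1 * |‖Bh N β q.1‖|) * (w b q.2 * |‖Bh N β q.2‖|) * ‖Cor k P q.1 q.2‖ ^ s
        ∂((volume.restrict {t : ℝ | t1 k P < |t| ∧ |t| ≤ (P : ℝ) ^ (-κ)}).prod
          (volume.restrict {t : ℝ | t1 k P < |t| ∧ |t| ≤ (P : ℝ) ^ (-κ)})) ≤
        C * N * (P : ℝ) ^ ((s : ℝ) - k) * (1 + Real.log P) ^ s := by
  refine ⟨400 * (1 + k * 2 ^ (k + 1)) ^ s, by positivity, fun P hP b hb N β D hD hPD hβ => ?_⟩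
  have hP0 : (0 : ℝ) < P := by exact_mod_cast hP
  have hP1 : (1 : ℝ) ≤ P := by exact_mod_cast hP
  have hlog : 0 ≤ Real.log P := Real.log_nonneg hP1
  have hb0 : 0 < b := by linarith
  set T : ℝ := (P : ℝ) ^ (-κ) with hT
  have hT0 : 0 < T := Real.rpow_pos_of_pos hP0 _
  set E : Set ℝ := {t : ℝ | t1 k P < |t| ∧ |t| ≤ T} with hE
  have hEm : MeasurableSet E := (measurableSet_lt measurable_const measurable_norm).inter
      (measurableSet_le measurable_norm measurable_const)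
  set M : ℝ := (1 + k * 2 ^ (k + 1)) * (P * (1 + Real.log P)) with hM
  have hM0 : 0 ≤ M := by positivity
  have hsub : E ⊆ Icc (-T) T := fun t ht => abs_le.mp ht.2
  have hvol : volume E ≤ ENNReal.ofReal (2 * T) := by
    refine (measure_mono hsub).trans ?_
    rw [Real.volume_Icc]
    apply ENNReal.ofReal_le_ofReal
    linarith
  have hfin : volume E < ⊤ := lt_of_le_of_lt hvol ENNReal.ofReal_lt_top
  have hreal : volume.real E ≤ 2 * T := by
    unfold Measure.real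
    exact ENNReal.toReal_le_of_le_ofReal (by positivity) hvol
  have hK : ∀ t ∈ E, ∫ t' in E, w b t' * ‖Cor k P t t'‖ ^ s ≤ M ^ s * (2 * T) := by
    intro t ht
    have h1 : ‖∫ t' in E, w b t' * ‖Cor k P t t'‖ ^ s‖ ≤ M ^ s * volume.real E := by
      apply norm_setIntegral_le_of_norm_le_const hfin
      intro t' ht'
      have h0 : 0 ≤ w b t' * ‖Cor k P t t'‖ ^ s := mul_nonneg (w_nonneg _ _) (by positivity)
      rw [Real.norm_of_nonneg h0]
      have h2 : ‖Cor k P t t'‖ ^ s ≤ M ^ s :=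
        pow_le_pow_left₀ (norm_nonneg _) (cor_minor2 k hk P hP t t' ht.1 ht'.1) s
      calc w b t' * ‖Cor k P t t'‖ ^ s ≤ 1 * M ^ s :=
            mul_le_mul (w_le_one hb t') h2 (by positivity) zero_le_one
        _ = M ^ s := one_mul _
    refine (Real.le_norm_self _).trans (h1.trans ?_)
    gcongr
  have hlow : IntegrableOn (fun t : ℝ => ‖Bh N β t‖ ^ 2) E :=
    (integrableOn_low N β T).mono_set (fun t ht => ht.2)
  have hKi : IntegrableOn (fun t => w b t * ‖Bh N β t‖ ^ 2 * (M ^ s * (2 * T))) E :=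
    (integrable_w_Bh N β hb0).integrableOn.mul_const _
  refine (schur k P s hb0 (fun t => ‖Bh N β t‖) (continuous_Bh N β).norm (N : ℝ) (fun t => by
    rw [abs_of_nonneg (norm_nonneg _)]; exact norm_Bh_le N β t) E hEm _ hK hKi).trans ?_
  have h1 : ∫ t in E, w b t * ‖Bh N β t‖ ^ 2 * (M ^ s * (2 * T)) ≤
      (∫ t in E, ‖Bh N β t‖ ^ 2) * (M ^ s * (2 * T)) := by
    rw [integral_mul_const]
    apply mul_le_mul_of_nonneg_right _ (by positivity)
    refine integral_mono_of_nonneg (Filter.Eventually.of_forall fun t => ?_) hlow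
      (Filter.Eventually.of_forall fun t => ?_)
    · have := w_nonneg b t
      show 0 ≤ _
      positivity
    · have h2 := w_le_one hb t
      have h3 : 0 ≤ ‖Bh N β t‖ ^ 2 := by positivity
      show w b t * ‖Bh N β t‖ ^ 2 ≤ ‖Bh N β t‖ ^ 2
      nlinarith
  have h2 : ∫ t in E, ‖Bh N β t‖ ^ 2 ≤ 100 * N * (T + 1 / D) := by
    refine le_trans ?_ (L2_low N β D hD hβ T hT0)
    refine setIntegral_mono_set (integrableOn_low N β T) (Filter.Eventually.of_forall fun t => ?_)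
      (Filter.Eventually.of_forall fun t ht => ?_)
    · show 0 ≤ _
      positivity
    · exact (show t ∈ E from ht).2
  have h3 : (T + 1 / D) * T ≤ 2 * (P : ℝ) ^ (-(k : ℝ)) := by
    have e1 : T * T ≤ (P : ℝ) ^ (-(k : ℝ)) := by
      rw [hT, ← Real.rpow_add hP0]
      exact Real.rpow_le_rpow_of_exponent_le hP1 (by linarith)
    have e2 : 1 / D * T ≤ (P : ℝ) ^ (-(k : ℝ)) := by
      have e3 : 1 / D ≤ (P : ℝ) ^ (-x) := by
        rw [Real.rpow_neg hP0.le, ← one_div]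
        exact one_div_le_one_div_of_le (Real.rpow_pos_of_pos hP0 _) hPD
      calc 1 / D * T ≤ (P : ℝ) ^ (-x) * (P : ℝ) ^ (-κ) := by
            rw [hT]
            gcongr
        _ = (P : ℝ) ^ (-x + -κ) := (Real.rpow_add hP0 _ _).symm
        _ ≤ _ := Real.rpow_le_rpow_of_exponent_le hP1 (by linarith)
    rw [add_mul]
    linarith
  calc _ ≤ (∫ t in E, ‖Bh N β t‖ ^ 2) * (M ^ s * (2 * T)) := h1
    _ ≤ (100 * N * (T + 1 / D)) * (M ^ s * (2 * T)) := by gcongr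
    _ = 200 * N * M ^ s * ((T + 1 / D) * T) := by ring
    _ ≤ 200 * N * M ^ s * (2 * (P : ℝ) ^ (-(k : ℝ))) := by gcongr
    _ = _ := by
        rw [hM, mul_pow, mul_pow, sub_eq_add_neg, Real.rpow_add hP0, Real.rpow_natCast]
        ring

/-- the row integral -/
theorem inner2 (k s P : ℕ) (hk : 4 ≤ k) (hP : 1 ≤ P) (hs : 4 ≤ s) (b : ℝ) (hb : 1 ≤ b) (S : Set ℝ)
    (t : ℝ) (htP : 1 ≤ |t| * (P : ℝ) ^ (k - 1)) (ht0 : t ≠ 0) :
    ∫ t' in S, w b t' * ‖Cor k P t t'‖ ^ s ≤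
      JJ s * ((4 * (P : ℝ)) ^ s * ((P : ℝ) ^ k)⁻¹) +
      (JJ s * (64 * (1 + 2 ^ k) * (P : ℝ) ^ (2 - (k : ℝ) / 2)) ^ s) * |t| ^ (-((s : ℝ) / 2 - 1)) +
      (JJ s * (4 * (P : ℝ) ^ (2 - (k : ℝ))) ^ s) * |t| ^ (-((s : ℝ) - 1)) := by
  have hP0 : (0 : ℝ) < P := by exact_mod_cast hP
  have hs4 : (4 : ℝ) ≤ s := by exact_mod_cast hs
  have ht1 : 0 < |t| := abs_pos.mpr ht0
  obtain ⟨i1, e1⟩ := kern (s : ℝ) ((P : ℝ) ^ k) t (by linarith) (by positivity)
  obtain ⟨i2, e2⟩ := kern (s : ℝ) (|t|⁻¹) 0 (by linarith) (inv_pos.mpr ht1)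
  set J0 := JJ (s : ℝ) with hJ0
  set D : ℝ := (64 * (1 + 2 ^ k) * (P : ℝ) ^ (2 - (k : ℝ) / 2) * |t| ^ (-(1 / 2 : ℝ))) ^ s +
      (4 * (P : ℝ) ^ (2 - (k : ℝ)) * |t| ^ (-1 : ℝ)) ^ s with hD
  have ig : Integrable (fun t' : ℝ => (4 * (P : ℝ)) ^ s * (1 + |t - t'| * (P : ℝ) ^ k) ^ (-(s : ℝ)) +
      D * (1 + |0 - t'| * |t|⁻¹) ^ (-(s : ℝ))) := (i1.const_mul _).add (i2.const_mul _)
  have hD0 : 0 ≤ D := by positivity
  calc ∫ t' in S, w b t' * ‖Cor k P t t'‖ ^ s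
      ≤ ∫ t' in S, ((4 * (P : ℝ)) ^ s * (1 + |t - t'| * (P : ℝ) ^ k) ^ (-(s : ℝ)) +
      D * (1 + |0 - t'| * |t|⁻¹) ^ (-(s : ℝ))) := by
        refine integral_mono_of_nonneg (Filter.Eventually.of_forall fun t' => ?_) ig.integrableOn
          (Filter.Eventually.of_forall fun t' => ?_)
        · have := w_nonneg b t'
          show 0 ≤ _
          positivity
        · have h1 := ptw k s P hk hP t t' htP ht0
          have h2 := w_nonneg b t'
          have h3 := w_le_one hb t'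
          have h4 : w b t' * ‖Cor k P t t'‖ ^ s ≤ ‖Cor k P t t'‖ ^ s := by
            have : 0 ≤ ‖Cor k P t t'‖ ^ s := by positivity
            nlinarith
          exact h4.trans h1
    _ ≤ ∫ t', ((4 * (P : ℝ)) ^ s * (1 + |t - t'| * (P : ℝ) ^ k) ^ (-(s : ℝ)) +
      D * (1 + |0 - t'| * |t|⁻¹) ^ (-(s : ℝ))) := by
        refine setIntegral_le_integral ig (Filter.Eventually.of_forall fun t' => ?_)
        show 0 ≤ _
        positivity
    _ = (4 * (P : ℝ)) ^ s * (((P : ℝ) ^ k)⁻¹ * J0) + D * (|t| * J0) := by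
        rw [integral_add (i1.const_mul _) (i2.const_mul _), integral_const_mul,
          integral_const_mul, e1, e2, inv_inv]
    _ = _ := by
        have q1 : (|t| ^ (-(1 / 2 : ℝ))) ^ s * |t| = |t| ^ (-((s : ℝ) / 2 - 1)) := by
          rw [← Real.rpow_natCast, ← Real.rpow_mul ht1.le]
          nth_rw 2 [← Real.rpow_one |t|]
          rw [← Real.rpow_add ht1]; congr 1; ring
        have q2 : (|t| ^ (-1 : ℝ)) ^ s * |t| = |t| ^ (-((s : ℝ) - 1)) := by
          rw [← Real.rpow_natCast, ← Real.rpow_mul ht1.le]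
          nth_rw 2 [← Real.rpow_one |t|]
          rw [← Real.rpow_add ht1]; congr 1; ring
        rw [hD, mul_pow _ (|t| ^ (-(1 / 2 : ℝ))), mul_pow _ (|t| ^ (-1 : ℝ)), ← q1, ← q2]
        ring

end Pool.H48.Wt
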